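import Pool.Agent.NH65.SP.Defs
import Pool.Agent.NH65.SN.HPT

/-!
# The affine Hecke maps preserve the invariant measure
-/

set_option autoImplicit false

namespace Pool.Agent.NH65.SP.Aff

open MeasureTheory Pool.Agent.NH65.SN Pool.Agent.NH65.SP
open scoped UpperHalfPlane MatrixGroups

theorem isClosed_FD : IsClosed FD := by
  have h1 : IsClosed {z : ℍ | |z.re| ≤ 1 / 2} :=
    isClosed_le (continuous_abs.comp UpperHalfPlane.continuous_re) continuous_const
  have h2 : IsClosed {z : ℍ | 1 ≤ ‖(z : ℂ)‖} :=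
    isClosed_le continuous_const (continuous_norm.comp UpperHalfPlane.continuous_coe)
  exact h1.inter h2

theorem measurableSet_FD : MeasurableSet FD := isClosed_FD.measurableSet

/-- the map `z ↦ (a z + b) / d` is given by a matrix -/
theorem exists_gl (a b d : ℝ) (ha : 0 < a) (hd : 0 < d) :
    ∃ γ : GL (Fin 2) ℝ, ∀ z : ℍ, ((γ • z : ℍ) : ℂ) = ((a : ℂ) * z + b) / d := by
  have hdet : Matrix.det !![a, b; 0, d] ≠ 0 := by
    rw [Matrix.det_fin_two_of]
    have : 0 < a * d := mul_pos ha hd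
    linarith
  refine ⟨Matrix.GeneralLinearGroup.mkOfDetNeZero !![a, b; 0, d] hdet, ?_⟩
  intro z
  have hpos : 0 < (Matrix.GeneralLinearGroup.mkOfDetNeZero !![a, b; 0, d] hdet).det.val := by
    change 0 < Matrix.det !![a, b; 0, d]
    rw [Matrix.det_fin_two_of]
    have : 0 < a * d := mul_pos ha hd
    linarith
  rw [UpperHalfPlane.coe_smul_of_det_pos hpos]
  simp [UpperHalfPlane.num, UpperHalfPlane.denom, Matrix.GeneralLinearGroup.mkOfDetNeZero]

theorem ptH_eq {p : ℕ} (hp : p.Prime) {x : ℕ × ℕ} (hx : x ∈ hk p) :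
    ∃ γ : GL (Fin 2) ℝ, ∀ z : ℍ, ptH p x z = γ • z := by
  have hp0 : (0 : ℝ) < p := by exact_mod_cast hp.pos
  have hcoe : ∀ z : ℍ, ((ptH p x z : ℍ) : ℂ) = pt p x z := fun z => HPT.coe_ptH hx z
  rcases (HPT.mem_hk_prime hp x).1 hx with rfl | ⟨h1, -⟩
  · obtain ⟨γ, hγ⟩ := exists_gl p 0 1 hp0 one_pos
    refine ⟨γ, fun z => ?_⟩
    apply UpperHalfPlane.ext
    rw [hcoe, hγ]
    simp [pt]
  · obtain ⟨γ, hγ⟩ := exists_gl 1 x.2 p one_pos hp0
    refine ⟨γ, fun z => ?_⟩
    apply UpperHalfPlane.ext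
    rw [hcoe, hγ]
    unfold pt
    rw [h1, Nat.div_self hp.pos]
    simp

theorem s_aff : S_AFF := by
  intro p hp x hx
  obtain ⟨γ, hγ⟩ := ptH_eq hp hx
  have hfun : ptH p x = fun z => γ • z := funext hγ
  have hemb : MeasurableEmbedding (fun z : ℍ => γ • z) := measurableEmbedding_const_smul γ
  rw [hfun]
  refine ⟨hemb.measurableSet_image.2 measurableSet_FD, ?_⟩
  intro f hf
  exact (measurePreserving_smul γ (volume : Measure ℍ)).setLIntegral_comp_emb hemb f FD

end Pool.Agent.NH65.SP.Aff
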