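import Pool.Agent.NH65.SP.Defs

/-!
SP-15 ARITH (helper54): inequivalence of the nodes at a CM point with `p` inert.
-/

set_option autoImplicit false
open Pool.Agent.NH65.SN Pool.Agent.NH65.SP
open scoped UpperHalfPlane MatrixGroups

namespace Pool.Agent.NH65.SP.Arith

/-- an inert prime which divides a value of the form divides both arguments -/
theorem dvd_both {P t l Δ : ℤ} (hP : Prime P) (hin : ∀ x : ℤ, ¬ P ∣ x ^ 2 + Δ)
    (h : P ∣ t ^ 2 + l ^ 2 * Δ) : P ∣ t ∧ P ∣ l := by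
  have hl : P ∣ l := by
    by_contra hl
    have hc : IsCoprime P l := (Prime.coprime_iff_not_dvd hP).2 hl
    obtain ⟨u, v, huv⟩ := hc
    -- `v * l ≡ 1`
    apply hin (v * t)
    have h1 : (v * t) ^ 2 + Δ = v ^ 2 * (t ^ 2 + l ^ 2 * Δ) + P * (u * (1 + v * l) * Δ) := by
      linear_combination (-(1 + v * l) * Δ) * huv
    rw [h1]
    exact dvd_add (Dvd.dvd.mul_left h _) (Dvd.intro _ rfl)
  refine ⟨?_, hl⟩
  have h2 : P ∣ t ^ 2 := by
    have h3 : P ∣ l ^ 2 * Δ := Dvd.dvd.mul_right (Dvd.dvd.pow hl two_ne_zero) _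
    exact (dvd_add_left h3).1 h
  exact hP.dvd_of_dvd_pow h2

/-- descent -/
theorem descent {P t l Δ : ℤ} (hP : Prime P) (hin : ∀ x : ℤ, ¬ P ∣ x ^ 2 + Δ) {s : ℕ}
    (h : t ^ 2 + l ^ 2 * Δ = 4 * P ^ s) : ∀ j : ℕ, 2 * j ≤ s →
      ∃ t' l' : ℤ, t = P ^ j * t' ∧ l = P ^ j * l' ∧ t' ^ 2 + l' ^ 2 * Δ = 4 * P ^ (s - 2 * j) := by
  intro j
  induction j with
  | zero => exact fun _ => ⟨t, l, by simp, by simp, by simpa using h⟩
  | succ j ih =>
    intro hj
    obtain ⟨t', l', h1, h2, h3⟩ := ih (by omega)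
    have h4 : P ∣ t' ^ 2 + l' ^ 2 * Δ := by
      rw [h3, show s - 2 * j = (s - 2 * (j + 1)) + 1 + 1 by omega, pow_succ]
      exact Dvd.intro_left (4 * P ^ (s - 2 * (j + 1) + 1)) (by ring)
    obtain ⟨⟨t'', ht⟩, ⟨l'', hl⟩⟩ := dvd_both hP hin h4
    refine ⟨t'', l'', by rw [h1, ht]; ring, by rw [h2, hl]; ring, ?_⟩
    have h5 : P ^ 2 * (t'' ^ 2 + l'' ^ 2 * Δ) = P ^ 2 * (4 * P ^ (s - 2 * (j + 1))) := by
      have h6 : P ^ 2 * (t'' ^ 2 + l'' ^ 2 * Δ) = t' ^ 2 + l' ^ 2 * Δ := by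
        rw [ht, hl]; ring
      rw [h6, h3, show s - 2 * j = (s - 2 * (j + 1)) + 2 by omega]
      ring
    exact mul_left_cancel₀ (pow_ne_zero 2 hP.ne_zero) h5

theorem delta_ge {A B C : ℤ} (h : 0 < 4 * A * C - B ^ 2) : 3 ≤ 4 * A * C - B ^ 2 := by
  rcases Int.even_or_odd' B with ⟨k, hk | hk⟩
  · have h1 : 4 * A * C - B ^ 2 = 4 * (A * C - k ^ 2) := by rw [hk]; ring
    omega
  · have h1 : 4 * A * C - B ^ 2 = 4 * (A * C - k ^ 2 - k) - 1 := by rw [hk]; ring
    omega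

end Pool.Agent.NH65.SP.Arith

namespace Pool.Agent.NH65.SP

open Arith in
theorem s_arith (h : S_SCAL) : S_ARITH := by
  intro p hp hp3 A B C _ hΔ hin n b m b' hn hm hb hb' hbn hbm g l h10 hd h01
  by_cases hl : l = 0
  · subst hl
    refine h p hp n b m b' hbn hbm g ?_ ?_ ?_
    · rw [h10]; ring
    · linarith
    · linarith
  exfalso
  set P : ℤ := (p : ℤ) with hPdef
  have hP : Prime P := Nat.prime_iff_prime_int.1 hp
  have hPb : P ∣ (b : ℤ) := Int.natCast_dvd_natCast.2 hb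
  have hPb' : P ∣ (b' : ℤ) := Int.natCast_dvd_natCast.2 hb'
  have hdet : g.1 0 0 * g.1 1 1 - g.1 0 1 * g.1 1 0 = 1 := by
    have := g.2
    rw [Matrix.det_fin_two] at this
    exact this
  rw [kap10] at h10
  rw [kap11, kap00] at hd
  rw [kap01] at h01
  set a := g.1 0 0 with ha
  set b0 := g.1 0 1 with hb0
  set c := g.1 1 0 with hc
  set d := g.1 1 1 with hdd
  set Δ : ℤ := 4 * A * C - B ^ 2 with hΔdef
  -- the entries of `kap`
  obtain ⟨k00, hk00⟩ : ∃ k00 : ℤ, k00 = P ^ n * a - b * c := ⟨_, rfl⟩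
  obtain ⟨k11, hk11⟩ : ∃ k11 : ℤ, k11 = c * b' + d * P ^ m := ⟨_, rfl⟩
  have hd' : k11 - k00 = l * B := by rw [hk00, hk11]; exact hd
  have h01' : P ^ n * (a * b' + b0 * P ^ m) - b * k11 = -(l * C) := by
    rw [hk11]; linarith
  have hdetk : k00 * k11 - (-(l * C)) * (l * A) = P ^ (n + m) := by
    rw [← h01', ← h10, hk00, hk11, pow_add]
    linear_combination (P ^ n * P ^ m) * hdet
  have hmain : (k00 + k11) ^ 2 + l ^ 2 * Δ = 4 * P ^ (n + m) := by
    have e1 : (k00 + k11) ^ 2 = (k11 - k00) ^ 2 + 4 * (k00 * k11) := by ring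
    rw [e1, hd', hΔdef]
    linear_combination 4 * hdetk
  -- descent
  obtain ⟨t, l', ht, hl', hfin⟩ := descent hP hin hmain ((n + m) / 2) (by omega)
  set j := (n + m) / 2 with hj
  have hP2 : ¬ P ∣ 4 := by
    intro h4
    have h2 : P ∣ 2 ^ 2 := by simpa using h4
    have h3 := Int.le_of_dvd (by norm_num) (hP.dvd_of_dvd_pow h2)
    have : (3 : ℤ) ≤ P := by rw [hPdef]; exact_mod_cast hp3
    linarith
  have hev : n + m = 2 * j := by
    rcases Nat.even_or_odd' (n + m) with ⟨k, hk | hk⟩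
    · omega
    · exfalso
      have hjk : j = k := by omega
      have h1 : n + m - 2 * j = 1 := by omega
      rw [h1, pow_one] at hfin
      have h2 : P ∣ t ^ 2 + l' ^ 2 * Δ := by
        rw [hfin]
        exact Dvd.intro_left _ rfl
      obtain ⟨⟨t1, ht1⟩, ⟨l1, hl1⟩⟩ := dvd_both hP hin h2
      apply hP2
      have h3 : P * (P * (t1 ^ 2 + l1 ^ 2 * Δ)) = P * 4 := by
        have : P * (P * (t1 ^ 2 + l1 ^ 2 * Δ)) = t ^ 2 + l' ^ 2 * Δ := by
          rw [ht1, hl1]; ring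
        rw [this, hfin]; ring
      have h4 := mul_left_cancel₀ hP.ne_zero h3
      exact ⟨_, h4.symm⟩
  have hfin' : t ^ 2 + l' ^ 2 * Δ = 4 := by
    rw [hfin, show n + m - 2 * j = 0 by omega]
    ring
  have hl0 : l' ≠ 0 := by
    intro h0
    apply hl
    rw [hl', h0, mul_zero]
  have hΔ3 : 3 ≤ Δ := delta_ge hΔ
  have hl1 : l' ^ 2 = 1 := by
    have h1 : 0 < l' ^ 2 := by positivity
    have h2 : l' ^ 2 * 3 ≤ 4 := by nlinarith [sq_nonneg t]
    omega
  -- the matrix `ε`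
  have hcop : IsCoprime (P ^ j) 2 := by
    refine IsCoprime.pow_left ((Prime.coprime_iff_not_dvd hP).2 fun h2 => hP2 ?_)
    exact h2.trans (by norm_num)
  obtain ⟨e00, he00⟩ : P ^ j ∣ k00 := by
    refine hcop.dvd_of_dvd_mul_left ⟨t - l' * B, ?_⟩
    have : 2 * k00 = (k00 + k11) - (k11 - k00) := by ring
    rw [this, ht, hd', hl']
    ring
  obtain ⟨e11, he11⟩ : P ^ j ∣ k11 := by
    refine hcop.dvd_of_dvd_mul_left ⟨t + l' * B, ?_⟩
    have : 2 * k11 = (k00 + k11) + (k11 - k00) := by ring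
    rw [this, ht, hd', hl']
    ring
  have hPj : P ^ j ≠ 0 := pow_ne_zero _ hP.ne_zero
  have hPn : P ^ n ≠ 0 := pow_ne_zero _ hP.ne_zero
  have hdete : e00 * e11 - (-(l' * C)) * (l' * A) = 1 := by
    have h1 : P ^ j * P ^ j * (e00 * e11 - (-(l' * C)) * (l' * A)) = P ^ j * P ^ j * 1 := by
      have h2 : P ^ j * P ^ j * (e00 * e11 - (-(l' * C)) * (l' * A)) =
          k00 * k11 - (-(l * C)) * (l * A) := by
        rw [he00, he11, hl']; ring
      rw [h2, hdetk, hev, two_mul, pow_add, mul_one]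
    exact mul_left_cancel₀ (mul_ne_zero hPj hPj) h1
  have hE1 : P ^ j * (e00 + b * (l' * A)) = P ^ n * a := by
    have h1 : P ^ j * (e00 + b * (l' * A)) = k00 + b * (l * A) := by rw [he00, hl']; ring
    rw [h1, ← h10, hk00]; ring
  have hE2 : P ^ j * (-(l' * C) + b * e11) = P ^ n * (a * b' + b0 * P ^ m) := by
    have h1 : P ^ j * (-(l' * C) + b * e11) = -(l * C) + b * k11 := by rw [he11, hl']; ring
    rw [h1]; linarith
  have hE3 : P ^ j * (l' * A) = c := by rw [h10, hl']; ring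
  have hnu : ¬ P ∣ 1 := fun h => hP.not_isUnit (isUnit_of_dvd_one h)
  have hj1 : 1 ≤ j := by omega
  rcases lt_trichotomy j n with hjn | hjn | hjn
  · -- `j < n`
    have h1 : e00 + b * (l' * A) = P ^ (n - j) * a := by
      have h2 : P ^ j * (e00 + b * (l' * A)) = P ^ j * (P ^ (n - j) * a) := by
        rw [hE1, ← mul_assoc, ← pow_add, show j + (n - j) = n by omega]
      exact mul_left_cancel₀ hPj h2
    have h3 : -(l' * C) + b * e11 = P ^ (n - j) * (a * b' + b0 * P ^ m) := by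
      have h2 : P ^ j * (-(l' * C) + b * e11) = P ^ j * (P ^ (n - j) * (a * b' + b0 * P ^ m)) := by
        rw [hE2, ← mul_assoc (P ^ j), ← pow_add, show j + (n - j) = n by omega]
      exact mul_left_cancel₀ hPj h2
    have hPd : P ∣ P ^ (n - j) := dvd_pow_self P (by omega)
    have h4 : P ∣ e00 := by
      have h5 : P ∣ e00 + b * (l' * A) := by rw [h1]; exact Dvd.dvd.mul_right hPd _
      exact (dvd_add_left (Dvd.dvd.mul_right hPb _)).1 h5
    have h6 : P ∣ -(l' * C) := by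
      have h5 : P ∣ -(l' * C) + b * e11 := by rw [h3]; exact Dvd.dvd.mul_right hPd _
      exact (dvd_add_left (Dvd.dvd.mul_right hPb _)).1 h5
    apply hnu
    rw [← hdete]
    exact dvd_sub (Dvd.dvd.mul_right h4 _) (Dvd.dvd.mul_right h6 _)
  · -- `j = n`
    have h3 : -(l' * C) + b * e11 = a * b' + b0 * P ^ m := by
      rw [hjn] at hE2
      exact mul_left_cancel₀ hPn hE2
    have h6 : P ∣ l' * C := by
      have h7 : l' * C = b * e11 - (a * b' + b0 * P ^ m) := by linarith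
      rw [h7]
      refine dvd_sub (Dvd.dvd.mul_right hPb _) (dvd_add (Dvd.dvd.mul_left hPb' _)
        (Dvd.dvd.mul_left (dvd_pow_self P (by omega)) _))
    apply hin B
    have h8 : B ^ 2 + Δ = 4 * A * (l' * (l' * C)) := by
      rw [hΔdef]
      linear_combination (-4 * A * C) * hl1
    rw [h8]
    exact Dvd.dvd.mul_left (Dvd.dvd.mul_left h6 _) _
  · -- `n < j`
    have h1 : P ^ (j - n) * (e00 + b * (l' * A)) = a := by
      have h2 : P ^ n * (P ^ (j - n) * (e00 + b * (l' * A))) = P ^ n * a := by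
        rw [← mul_assoc, ← pow_add, show n + (j - n) = j by omega, hE1]
      exact mul_left_cancel₀ hPn h2
    apply hnu
    rw [← hdet]
    refine dvd_sub (Dvd.dvd.mul_right ?_ _) (Dvd.dvd.mul_left ?_ _)
    · rw [← h1]
      exact Dvd.dvd.mul_right (dvd_pow_self P (by omega)) _
    · rw [← hE3]
      exact Dvd.dvd.mul_right (dvd_pow_self P (by omega)) _

end Pool.Agent.NH65.SP
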