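import Pool.Agent.NH65.SP.Cm2

/-!
# A point at which a form is very small is close to the root of the form
-/

set_option autoImplicit false

namespace Pool.Agent.NH65.SP.Cm1

open Pool.Agent.NH65.SP Pool.Agent.NH65.SP.Cm3 Pool.Agent.NH65.SP.Cm2
open scoped UpperHalfPlane

theorem s_cm1 : S_CM1 := by
  intro z hz1 hz2 A B C h0 hQ
  have hy := z.im_pos
  set x := z.re with hx
  set y := z.im with hydef
  set Q : ℂ := (A : ℂ) * (z : ℂ) ^ 2 + (B : ℂ) * (z : ℂ) + (C : ℂ) with hQdef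
  obtain ⟨f1, f2⟩ := form_re_im A B C z
  rw [← hQdef, ← hx, ← hydef] at f1 f2
  set V : ℝ := A * (x ^ 2 + y ^ 2) + B * x + C with hV
  have hnorm : ‖Q‖ ^ 2 = V ^ 2 + ((B ^ 2 - 4 * A * C : ℤ) : ℝ) * y ^ 2 := by
    rw [Complex.sq_norm, Complex.normSq_apply, f1, f2, hV]
    push_cast
    ring
  have hQ2 : ‖Q‖ ^ 2 < 1 / 16 * y ^ 2 := by
    have := norm_nonneg Q
    nlinarith
  set D : ℤ := B ^ 2 - 4 * A * C with hD
  have hDneg : D < 0 := by
    by_contra hcon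
    push Not at hcon
    rcases Nat.lt_or_ge 0 D.natAbs with hpos | hzero
    · have h1 : (1 : ℤ) ≤ D := by omega
      have h2 : (1 : ℝ) ≤ D := by exact_mod_cast h1
      nlinarith [sq_nonneg V]
    · have hD0 : D = 0 := by omega
      rw [hD0] at hnorm
      simp only [Int.cast_zero, zero_mul, add_zero] at hnorm
      rw [hnorm] at hQ2
      by_cases hA : A = 0
      · have hB : B = 0 := by
          have : B ^ 2 = 0 := by
            have h := hD0
            rw [hD, hA] at h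
            simpa using h
          exact pow_eq_zero_iff (two_ne_zero) |>.1 this
        have hC : C ≠ 0 := fun hC => h0 ⟨hA, hB, hC⟩
        have hC1 : (1 : ℝ) ≤ (C : ℝ) ^ 2 := by
          have : 1 ≤ C ^ 2 := by
            have := Int.one_le_abs hC
            nlinarith [sq_abs C, abs_nonneg C]
          exact_mod_cast this
        have hVC : V = C := by rw [hV, hA, hB]; simp
        rw [hVC] at hQ2
        nlinarith
      · have hA1 : (1 : ℝ) ≤ (A : ℝ) ^ 2 := by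
          have : 1 ≤ A ^ 2 := by
            have := Int.one_le_abs hA
            nlinarith [sq_abs A, abs_nonneg A]
          exact_mod_cast this
        have hDr : (B : ℝ) ^ 2 - 4 * A * C = 0 := by
          have : ((D : ℤ) : ℝ) = 0 := by rw [hD0]; simp
          rw [hD] at this
          push_cast at this
          exact this
        have h4 : 4 * (A : ℝ) * V = (2 * A * x + B) ^ 2 + 4 * (A : ℝ) ^ 2 * y ^ 2 := by
          rw [hV]
          linear_combination -hDr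
        have h5 : 4 * (A : ℝ) ^ 2 * y ^ 2 ≤ 4 * (A : ℝ) * V := by
          rw [h4]
          nlinarith [sq_nonneg (2 * (A : ℝ) * x + B)]
        have h6 : (A : ℝ) ^ 2 * y ^ 2 ≤ (A : ℝ) * V := by linarith
        have h7 : ((A : ℝ) ^ 2 * y ^ 2) ^ 2 ≤ ((A : ℝ) * V) ^ 2 :=
          pow_le_pow_left₀ (by positivity) h6 2
        have h8 : (A : ℝ) ^ 2 * (y ^ 2) ^ 2 ≤ V ^ 2 := by
          have hA2 : (0 : ℝ) < (A : ℝ) ^ 2 := by linarith
          have h9 : (A : ℝ) ^ 2 * ((A : ℝ) ^ 2 * (y ^ 2) ^ 2) ≤ (A : ℝ) ^ 2 * V ^ 2 := by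
            calc (A : ℝ) ^ 2 * ((A : ℝ) ^ 2 * (y ^ 2) ^ 2) = ((A : ℝ) ^ 2 * y ^ 2) ^ 2 := by ring
              _ ≤ ((A : ℝ) * V) ^ 2 := h7
              _ = _ := by ring
          exact le_of_mul_le_mul_left h9 hA2
        have h9 : (1 : ℝ) / 16 ≤ y ^ 2 := by nlinarith
        have h10 : (1 : ℝ) / 16 * y ^ 2 ≤ V ^ 2 := by
          calc (1 : ℝ) / 16 * y ^ 2 ≤ y ^ 2 * y ^ 2 := by
                exact mul_le_mul_of_nonneg_right h9 (sq_nonneg y)
            _ ≤ (A : ℝ) ^ 2 * (y ^ 2) ^ 2 := by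
                have : 0 ≤ (y ^ 2) ^ 2 := by positivity
                nlinarith
            _ ≤ V ^ 2 := h8
        linarith
  refine ⟨hDneg, ?_⟩
  have hDr : (1 : ℝ) ≤ -(D : ℝ) := by
    have : (1 : ℤ) ≤ -D := by omega
    exact_mod_cast this
  have hA : A ≠ 0 := by
    rintro rfl
    rw [hD] at hDneg
    nlinarith [sq_nonneg B]
  have hAr : (A : ℝ) ≠ 0 := by exact_mod_cast hA
  have hAabs : 0 < |(A : ℝ)| := abs_pos.2 hAr
  set y₀ : ℝ := Real.sqrt (-(D : ℝ)) / (2 * |(A : ℝ)|) with hy0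
  have hsq : Real.sqrt (-(D : ℝ)) ^ 2 = -(D : ℝ) := Real.sq_sqrt (by linarith)
  have hsp : 0 < Real.sqrt (-(D : ℝ)) := Real.sqrt_pos.2 (by linarith)
  have hy0pos : 0 < y₀ := by positivity
  set x₀ : ℝ := -(B : ℝ) / (2 * A) with hx0
  let z₀ : ℍ := ⟨⟨x₀, y₀⟩, hy0pos⟩
  have hre : z₀.re = x₀ := rfl
  have him : z₀.im = y₀ := rfl
  have hDr2 : (D : ℝ) = (B : ℝ) ^ 2 - 4 * A * C := by
    rw [hD]
    push_cast
    ring
  have hy0sq : 4 * (A : ℝ) ^ 2 * y₀ ^ 2 = -(D : ℝ) := by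
    rw [hy0, div_pow, hsq, mul_pow, sq_abs]
    field_simp
    ring
  have hBx : (B : ℝ) = -2 * A * x₀ := by
    rw [hx0]
    field_simp
  have hCx : (C : ℝ) = A * (x₀ ^ 2 + y₀ ^ 2) := by
    have h4A : (4 * (A : ℝ)) ≠ 0 := by positivity
    apply mul_left_cancel₀ h4A
    have : 4 * (A : ℝ) * (A * (x₀ ^ 2 + y₀ ^ 2)) = (2 * A * x₀) ^ 2 + 4 * (A : ℝ) ^ 2 * y₀ ^ 2 := by
      ring
    rw [this, hy0sq, hDr2, hBx]
    ring
  have hroot : Root A B C z₀ := root_iff.2 ⟨by rw [hre]; exact hBx, by rw [hre, him]; exact hCx⟩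
  refine ⟨z₀, hroot, ?_⟩
  -- the distance
  have hc := cosh_eq z z₀
  rw [hre, him, ← hx, ← hydef] at hc
  have hVe : V = A * ((x - x₀) ^ 2 + y ^ 2 + y₀ ^ 2) := by
    rw [hV, hBx, hCx]
    ring
  have hc2 : Real.cosh (dist z z₀) ^ 2 * (-(D : ℝ) * y ^ 2) = V ^ 2 := by
    rw [hc, hVe, ← hy0sq]
    field_simp
    ring
  have hs2 : Real.sinh (dist z z₀) ^ 2 * (-(D : ℝ) * y ^ 2) = ‖Q‖ ^ 2 := by
    have h1 := Real.cosh_sq (dist z z₀)
    have h2 : Real.sinh (dist z z₀) ^ 2 = Real.cosh (dist z z₀) ^ 2 - 1 := by linarith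
    rw [h2, sub_mul, hc2, hnorm]
    ring
  have hs3 : (Real.sinh (dist z z₀) * y) ^ 2 ≤ ‖Q‖ ^ 2 := by
    rw [← hs2, mul_pow]
    have : 0 ≤ Real.sinh (dist z z₀) ^ 2 * y ^ 2 := by positivity
    nlinarith
  have hd0 : 0 ≤ dist z z₀ := dist_nonneg
  have hs4 : Real.sinh (dist z z₀) * y ≤ ‖Q‖ := by
    apply le_of_sq_le_sq hs3 (norm_nonneg _)
  rw [le_div_iff₀ hy]
  have hs5 : dist z z₀ ≤ Real.sinh (dist z z₀) := Real.self_le_sinh_iff.2 hd0
  nlinarith

end Pool.Agent.NH65.SP.Cm1
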