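import Pool.Agent.NH65.SP.Cm3

/-!
# Roots of forms repel each other
-/

set_option autoImplicit false

namespace Pool.Agent.NH65.SP.Cm2

open Pool.Agent.NH65.SP Pool.Agent.NH65.SP.Cm3
open scoped UpperHalfPlane

/-- the hyperbolic cosine of the distance -/
theorem cosh_eq (z w : ℍ) :
    Real.cosh (dist z w) = ((z.re - w.re) ^ 2 + z.im ^ 2 + w.im ^ 2) / (2 * z.im * w.im) := by
  have hz := z.im_pos
  have hw := w.im_pos
  rw [UpperHalfPlane.cosh_dist, Complex.dist_eq, Complex.sq_norm, Complex.normSq_apply]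
  simp only [Complex.sub_re, Complex.sub_im, UpperHalfPlane.coe_re, UpperHalfPlane.coe_im]
  field_simp
  ring

theorem sinh_le_two_mul {t : ℝ} (h0 : 0 ≤ t) (h1 : t ≤ 1) : Real.sinh t ≤ 2 * t := by
  rw [Real.sinh_eq]
  have h2 := Real.abs_exp_sub_one_sub_id_le (x := t) (by rw [abs_of_nonneg h0]; exact h1)
  have h3 := (abs_le.1 h2).2
  have h4 := Real.add_one_le_exp (-t)
  nlinarith

theorem s_cm2 : S_CM2 := by
  intro z₁ z₂ A₁ B₁ C₁ A₂ B₂ C₂ h₁ h₂ r₁ r₂ Y hY hY1 hY2 hd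
  by_contra hne
  have p1 := root_disc_pos r₁ h₁
  have p2 := root_disc_pos r₂ h₂
  have e1 := root_disc r₁
  have e2 := root_disc r₂
  have y1 := z₁.im_pos
  have y2 := z₂.im_pos
  have a1 : (A₁ : ℝ) ≠ 0 := by exact_mod_cast root_ne_zero r₁ h₁
  have a2 : (A₂ : ℝ) ≠ 0 := by exact_mod_cast root_ne_zero r₂ h₂
  obtain ⟨b1, c1⟩ := root_iff.1 r₁
  obtain ⟨b2, c2⟩ := root_iff.1 r₂
  set D₁ : ℤ := 4 * A₁ * C₁ - B₁ ^ 2 with hD1
  set D₂ : ℤ := 4 * A₂ * C₂ - B₂ ^ 2 with hD2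
  set m : ℤ := 2 * A₁ * C₂ + 2 * A₂ * C₁ - B₁ * B₂ with hm
  have hm' : (m : ℝ) = 2 * A₁ * A₂ * ((z₁.re - z₂.re) ^ 2 + z₁.im ^ 2 + z₂.im ^ 2) := by
    rw [hm]
    push_cast
    rw [b1, b2, c1, c2]
    ring
  have hc := cosh_eq z₁ z₂
  set c := Real.cosh (dist z₁ z₂) with hcdef
  have hcm : c ^ 2 * ((D₁ : ℝ) * D₂) = (m : ℝ) ^ 2 := by
    rw [hc, hm', e1, e2]
    field_simp
    ring
  have hpos : 0 < dist z₁ z₂ := dist_pos.2 hne
  have hc1 : 1 < c := Real.one_lt_cosh.2 hpos.ne'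
  have hP : (0 : ℝ) < (D₁ : ℝ) * D₂ := by
    have h1 : (0 : ℝ) < D₁ := by exact_mod_cast p1
    have h2 : (0 : ℝ) < D₂ := by exact_mod_cast p2
    positivity
  have hm2 : (D₁ : ℝ) * D₂ + 1 ≤ (m : ℝ) ^ 2 := by
    have h1 : (D₁ : ℝ) * D₂ < (m : ℝ) ^ 2 := by
      rw [← hcm]
      nlinarith [mul_pos (sub_pos.2 hc1) hP]
    have h2 : D₁ * D₂ < m ^ 2 := by exact_mod_cast h1
    have h3 : D₁ * D₂ + 1 ≤ m ^ 2 := h2
    exact_mod_cast h3
  have hs : Real.sinh (dist z₁ z₂) ^ 2 * ((D₁ : ℝ) * D₂) ≥ 1 := by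
    have h1 := Real.cosh_sq (dist z₁ z₂)
    rw [← hcdef] at h1
    have h2 : Real.sinh (dist z₁ z₂) ^ 2 = c ^ 2 - 1 := by linarith
    rw [h2, sub_mul, hcm, one_mul]
    linarith
  have hDY : (D₁ : ℝ) * D₂ ≤ Y ^ 2 := by
    have h1 : (0 : ℝ) < D₁ := by exact_mod_cast p1
    have h2 : (0 : ℝ) < D₂ := by exact_mod_cast p2
    nlinarith
  have hd1 : dist z₁ z₂ ≤ 1 := by
    have : 1 / (2 * Y) ≤ 1 := by
      rw [div_le_one (by linarith)]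
      linarith
    linarith
  have hsd := sinh_le_two_mul hpos.le hd1
  have hs0 : 0 < Real.sinh (dist z₁ z₂) := Real.sinh_pos_iff.2 hpos
  have hsY : Real.sinh (dist z₁ z₂) * Y < 1 := by
    have h1 : dist z₁ z₂ * (2 * Y) < 1 := by
      rwa [lt_div_iff₀ (by linarith)] at hd
    nlinarith
  have hlast : Real.sinh (dist z₁ z₂) ^ 2 * ((D₁ : ℝ) * D₂) < 1 := by
    calc Real.sinh (dist z₁ z₂) ^ 2 * ((D₁ : ℝ) * D₂)
        ≤ Real.sinh (dist z₁ z₂) ^ 2 * Y ^ 2 := by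
          exact mul_le_mul_of_nonneg_left hDY (sq_nonneg _)
      _ = (Real.sinh (dist z₁ z₂) * Y) ^ 2 := by ring
      _ < 1 := by
          have h0 : 0 ≤ Real.sinh (dist z₁ z₂) * Y := by positivity
          nlinarith
  linarith

end Pool.Agent.NH65.SP.Cm2
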