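import Pool.Agent.NH65.SP.Defs

/-!
# Forms with a given root are the multiples of a primitive one
-/

set_option autoImplicit false

namespace Pool.Agent.NH65.SP.Cm3

open Pool.Agent.NH65.SP
open scoped UpperHalfPlane

/-- real and imaginary parts of the value of a form -/
theorem form_re_im (A B C : ℤ) (z : ℍ) :
    ((A : ℂ) * (z : ℂ) ^ 2 + (B : ℂ) * (z : ℂ) + (C : ℂ)).re =
        A * (z.re ^ 2 - z.im ^ 2) + B * z.re + C ∧
    ((A : ℂ) * (z : ℂ) ^ 2 + (B : ℂ) * (z : ℂ) + (C : ℂ)).im = z.im * (2 * A * z.re + B) := by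
  constructor
  · simp [pow_two]
  · simp [pow_two]
    ring

theorem root_iff {A B C : ℤ} {z : ℍ} :
    Root A B C z ↔ (B : ℝ) = -2 * A * z.re ∧ (C : ℝ) = A * (z.re ^ 2 + z.im ^ 2) := by
  have h := form_re_im A B C z
  have hy := z.im_pos
  unfold Root
  constructor
  · intro h0
    rw [h0] at h
    obtain ⟨h1, h2⟩ := h
    simp only [Complex.zero_re, Complex.zero_im] at h1 h2
    have h3 : 2 * (A : ℝ) * z.re + B = 0 := by
      rcases mul_eq_zero.1 h2.symm with h | h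
      · exact absurd h hy.ne'
      · exact h
    have h4 : (B : ℝ) = -2 * A * z.re := by linarith
    refine ⟨h4, ?_⟩
    rw [h4] at h1
    linarith
  · rintro ⟨h1, h2⟩
    apply Complex.ext
    · rw [h.1, h1, h2, Complex.zero_re]
      ring
    · rw [h.2, h1, Complex.zero_im]
      ring

theorem root_ne_zero {A B C : ℤ} {z : ℍ} (h : Root A B C z) (h0 : ¬ (A = 0 ∧ B = 0 ∧ C = 0)) :
    A ≠ 0 := by
  obtain ⟨h1, h2⟩ := root_iff.1 h
  rintro rfl
  apply h0
  refine ⟨rfl, ?_, ?_⟩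
  · have : (B : ℝ) = 0 := by rw [h1]; simp
    exact_mod_cast this
  · have : (C : ℝ) = 0 := by rw [h2]; simp
    exact_mod_cast this

theorem root_disc {A B C : ℤ} {z : ℍ} (h : Root A B C z) :
    ((4 * A * C - B ^ 2 : ℤ) : ℝ) = 4 * A ^ 2 * z.im ^ 2 := by
  obtain ⟨h1, h2⟩ := root_iff.1 h
  push_cast
  rw [h1, h2]
  ring

theorem root_disc_pos {A B C : ℤ} {z : ℍ} (h : Root A B C z) (h0 : ¬ (A = 0 ∧ B = 0 ∧ C = 0)) :
    0 < 4 * A * C - B ^ 2 := by
  have hA : (A : ℝ) ≠ 0 := by exact_mod_cast root_ne_zero h h0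
  have hy := z.im_pos
  have h1 : (0 : ℝ) < ((4 * A * C - B ^ 2 : ℤ) : ℝ) := by
    rw [root_disc h]
    positivity
  exact_mod_cast h1

/-- the coefficients of two forms with the same root are proportional -/
theorem root_prop {A B C A' B' C' : ℤ} {z : ℍ} (h : Root A B C z) (h' : Root A' B' C' z) :
    A' * B = A * B' ∧ A' * C = A * C' := by
  obtain ⟨h1, h2⟩ := root_iff.1 h
  obtain ⟨h3, h4⟩ := root_iff.1 h'
  constructor
  · have : ((A' * B : ℤ) : ℝ) = ((A * B' : ℤ) : ℝ) := by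
      push_cast
      rw [h1, h3]
      ring
    exact_mod_cast this
  · have : ((A' * C : ℤ) : ℝ) = ((A * C' : ℤ) : ℝ) := by
      push_cast
      rw [h2, h4]
      ring
    exact_mod_cast this

theorem s_cm3 : S_CM3 := by
  intro z A B C h0 hr
  -- the gcd
  obtain ⟨A₀, B₀, C₀, g, hg, rfl, rfl, rfl, u, v, w, huvw⟩ : ∃ A₀ B₀ C₀ g : ℤ, 0 < g ∧
      A = g * A₀ ∧ B = g * B₀ ∧ C = g * C₀ ∧ ∃ u v w : ℤ, u * A₀ + v * B₀ + w * C₀ = 1 := by
    set g : ℕ := Int.gcd A (Int.gcd B C) with hgdef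
    have hg0 : g ≠ 0 := by
      intro h
      rw [hgdef, Int.gcd_eq_zero_iff] at h
      obtain ⟨h1, h2⟩ := h
      have h3 : Int.gcd B C = 0 := by exact_mod_cast h2
      rw [Int.gcd_eq_zero_iff] at h3
      exact h0 ⟨h1, h3.1, h3.2⟩
    have d1 : (g : ℤ) ∣ A := Int.gcd_dvd_left _ _
    have d2 : (g : ℤ) ∣ (Int.gcd B C : ℤ) := Int.gcd_dvd_right _ _
    have d3 : (g : ℤ) ∣ B := d2.trans (Int.gcd_dvd_left _ _)
    have d4 : (g : ℤ) ∣ C := d2.trans (Int.gcd_dvd_right _ _)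
    obtain ⟨a, ha⟩ := d1
    obtain ⟨b, hb⟩ := d3
    obtain ⟨c, hc⟩ := d4
    have e1 : (g : ℤ) = A * Int.gcdA A (Int.gcd B C) + (Int.gcd B C : ℤ) * Int.gcdB A (Int.gcd B C) :=
      Int.gcd_eq_gcd_ab _ _
    have e2 : (Int.gcd B C : ℤ) = B * Int.gcdA B C + C * Int.gcdB B C := Int.gcd_eq_gcd_ab _ _
    set s := Int.gcdA A (Int.gcd B C)
    set t := Int.gcdB A (Int.gcd B C)
    set p := Int.gcdA B C
    set q := Int.gcdB B C
    refine ⟨a, b, c, g, by exact_mod_cast Nat.pos_of_ne_zero hg0, ha, hb, hc, s, p * t, q * t, ?_⟩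
    have hg1 : (g : ℤ) ≠ 0 := by exact_mod_cast hg0
    apply mul_left_cancel₀ hg1
    have e3 : (g : ℤ) = (g : ℤ) * a * s + (g * b * p + g * c * q) * t := by
      rw [← ha, ← hb, ← hc, ← e2]
      exact e1
    linarith [e3]
  have hr0 : Root A₀ B₀ C₀ z := by
    rw [root_iff] at hr ⊢
    have hgr : (g : ℝ) ≠ 0 := by exact_mod_cast hg.ne'
    obtain ⟨h1, h2⟩ := hr
    push_cast at h1 h2
    constructor
    · apply mul_left_cancel₀ hgr
      rw [h1]
      ring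
    · apply mul_left_cancel₀ hgr
      rw [h2]
      ring
  have h00 : ¬ (A₀ = 0 ∧ B₀ = 0 ∧ C₀ = 0) := by
    rintro ⟨rfl, rfl, rfl⟩
    exact h0 ⟨by simp, by simp, by simp⟩
  have hpos := root_disc_pos hr0 h00
  refine ⟨A₀, B₀, C₀, ?_, hpos, ?_, hr0, ?_⟩
  · intro d h1 h2 h3
    apply isUnit_of_dvd_one
    rw [← huvw]
    exact dvd_add (dvd_add (h1.mul_left _) (h2.mul_left _)) (h3.mul_left _)
  · have h1 : 4 * (g * A₀) * (g * C₀) - (g * B₀) ^ 2 = g ^ 2 * (4 * A₀ * C₀ - B₀ ^ 2) := by ring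
    rw [h1]
    have h2 : 1 ≤ g ^ 2 := by nlinarith
    nlinarith
  · intro A' B' C' h'
    obtain ⟨h1, h2⟩ := root_prop hr0 h'
    have hA0 := root_ne_zero hr0 h00
    have hA : A' = (u * A' + v * B' + w * C') * A₀ := by
      calc A' = A' * (u * A₀ + v * B₀ + w * C₀) := by rw [huvw, mul_one]
        _ = A' * u * A₀ + v * (A' * B₀) + w * (A' * C₀) := by ring
        _ = _ := by rw [h1, h2]; ring
    refine ⟨u * A' + v * B' + w * C', hA, ?_, ?_⟩
    · apply mul_left_cancel₀ hA0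
      rw [← h1]
      nth_rewrite 1 [hA]
      ring
    · apply mul_left_cancel₀ hA0
      rw [← h2]
      nth_rewrite 1 [hA]
      ring

end Pool.Agent.NH65.SP.Cm3
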