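import Pool.Agent.NH65.SP.Defs
import Pool.Agent.NH65.SN.HPT

/-!
# Project SP, COUNT: the number of `g` with `g z` in a Hecke translate of the fundamental domain
-/

set_option autoImplicit false

open Pool.Agent.NH65.SN
open scoped UpperHalfPlane MatrixGroups

namespace Pool.Agent.NH65.SP.Count

/-- the real inequalities -/
lemma bounds {P x0 y wr wi : ℝ} {a b c d : ℤ} (hP : 2 ≤ P) (hx : |x0| ≤ 1 / 2) (hy : 4 / 5 ≤ y)
    (hwr : |wr| ≤ P) (hwi0 : 0 < wi) (hwi : 4 / 5 ≤ wi * P) (hdet : a * d - b * c = 1)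
    (h1 : wr * (c * x0 + d) - wi * (c * y) = a * x0 + b)
    (h2 : wr * (c * y) + wi * (c * x0 + d) = a * y) :
    |(a : ℝ)| ≤ 4 * P ^ 2 ∧ |(b : ℝ)| ≤ 4 * P ^ 2 ∧ |(c : ℝ)| ≤ 4 * P ^ 2 ∧
      |(d : ℝ)| ≤ 4 * P ^ 2 := by
  have hy0 : 0 < y := by linarith
  have hdetR : (a : ℝ) * d - b * c = 1 := by exact_mod_cast hdet
  obtain ⟨q, hq⟩ : ∃ q : ℝ, q = c * x0 + d := ⟨_, rfl⟩
  rw [← hq] at h1 h2
  -- the imaginary part
  have h3 : wi * (q ^ 2 + (c * y) ^ 2) = y := by
    have e1 : (a * y) * q - (a * x0 + b) * (c * y) = y := by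
      rw [hq]
      have : (a * y) * (c * x0 + d) - (a * x0 + b) * (c * y) = (a * d - b * c) * y := by ring
      rw [this, hdetR, one_mul]
    rw [← h1, ← h2] at e1
    linarith [e1]
  have hPP : 2 * P ≤ P ^ 2 := by nlinarith
  by_cases hc : c = 0
  · subst hc
    simp only [Int.cast_zero, zero_mul, mul_zero, sub_zero, zero_add] at *
    have had : a * d = 1 := by linarith
    have ha : |(a : ℝ)| = 1 := by
      rcases Int.eq_one_or_neg_one_of_mul_eq_one had with h | h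
      · rw [h]; norm_num
      · rw [h]; norm_num
    have hd : |(d : ℝ)| = 1 := by
      rcases Int.eq_one_or_neg_one_of_mul_eq_one (by rw [mul_comm]; exact had : d * a = 1) with h | h
      · rw [h]; norm_num
      · rw [h]; norm_num
    have hqa : |q| = 1 := by rw [hq, hd]
    have hb : |(b : ℝ)| ≤ P + 1 / 2 := by
      have e1 : (b : ℝ) = wr * q - a * x0 := by linarith
      rw [e1]
      calc |wr * q - a * x0| ≤ |wr * q| + |a * x0| := abs_sub _ _
        _ = |wr| + |x0| := by rw [abs_mul, abs_mul, hqa, ha]; ring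
        _ ≤ P + 1 / 2 := by linarith
    refine ⟨by rw [ha]; nlinarith, by nlinarith, by rw [abs_zero]; positivity,
      by rw [hd]; nlinarith⟩
  · have hc1 : (1 : ℝ) ≤ |(c : ℝ)| := by
      have : 1 ≤ |c| := Int.one_le_abs hc
      exact_mod_cast this
    have hc2 : |(c : ℝ)| ≤ (c : ℝ) ^ 2 := by
      rw [← sq_abs]
      nlinarith
    have hc3 : (1 : ℝ) ≤ (c : ℝ) ^ 2 := hc1.trans hc2
    -- `q² + c² y² ≤ (5/4) P y`
    have h4 : q ^ 2 + (c * y) ^ 2 ≤ 5 / 4 * P * y := by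
      have e1 : wi * P * (q ^ 2 + (c * y) ^ 2) = P * y := by
        calc wi * P * (q ^ 2 + (c * y) ^ 2) = P * (wi * (q ^ 2 + (c * y) ^ 2)) := by ring
          _ = P * y := by rw [h3]
      have e2 : 4 / 5 * (q ^ 2 + (c * y) ^ 2) ≤ wi * P * (q ^ 2 + (c * y) ^ 2) :=
        mul_le_mul_of_nonneg_right hwi (by positivity)
      linarith
    have h5 : (c : ℝ) ^ 2 * y ≤ 5 / 4 * P := by
      have e1 : (c : ℝ) ^ 2 * y * y ≤ 5 / 4 * P * y := by nlinarith [sq_nonneg q]
      exact le_of_mul_le_mul_right e1 hy0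
    have h6 : y ≤ 5 / 4 * P := by nlinarith
    have h7 : (c : ℝ) ^ 2 ≤ 2 * P := by nlinarith
    have h8 : q ^ 2 ≤ (5 / 4 * P) ^ 2 := by nlinarith [sq_nonneg ((c : ℝ) * y)]
    have h9 : |q| ≤ 5 / 4 * P := abs_le_of_sq_le_sq h8 (by linarith)
    have h10 : |(c : ℝ)| ≤ 2 * P := hc2.trans h7
    have h11 : |(d : ℝ)| ≤ 3 * P := by
      have e1 : (d : ℝ) = q - c * x0 := by linarith
      rw [e1]
      calc |q - c * x0| ≤ |q| + |c * x0| := abs_sub _ _
        _ = |q| + |(c : ℝ)| * |x0| := by rw [abs_mul]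
        _ ≤ 5 / 4 * P + 2 * P * (1 / 2) := by
          apply add_le_add h9
          exact mul_le_mul h10 hx (abs_nonneg _) (by linarith)
        _ ≤ 3 * P := by linarith
    -- `wi c² y ≤ 1`
    have h12 : wi * ((c : ℝ) ^ 2 * y) ≤ 1 := by
      have e1 : wi * ((c : ℝ) ^ 2 * y) * y ≤ 1 * y := by
        have e2 : 0 ≤ wi * q ^ 2 := by positivity
        nlinarith
      exact le_of_mul_le_mul_right e1 hy0
    have h13 : wi ≤ 5 / 4 := by
      have e1 : wi * (4 / 5) ≤ wi * ((c : ℝ) ^ 2 * y) := by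
        apply mul_le_mul_of_nonneg_left _ hwi0.le
        nlinarith
      linarith
    have h14 : wi * |(c : ℝ)| * y ≤ 1 := by
      have e1 : wi * |(c : ℝ)| * y ≤ wi * ((c : ℝ) ^ 2 * y) := by
        have : |(c : ℝ)| * y ≤ (c : ℝ) ^ 2 * y := mul_le_mul_of_nonneg_right hc2 hy0.le
        calc wi * |(c : ℝ)| * y = wi * (|(c : ℝ)| * y) := by ring
          _ ≤ _ := mul_le_mul_of_nonneg_left this hwi0.le
      linarith
    -- `a`
    have h15 : |(a : ℝ)| ≤ 3 * P ^ 2 := by
      have e1 : |(a : ℝ)| * y ≤ P * (2 * P) * y + 5 / 4 * (5 / 4 * P) := by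
        calc |(a : ℝ)| * y = |a * y| := by rw [abs_mul, abs_of_pos hy0]
          _ = |wr * (c * y) + wi * q| := by rw [h2]
          _ ≤ |wr * (c * y)| + |wi * q| := abs_add_le _ _
          _ = |wr| * |(c : ℝ)| * y + wi * |q| := by
            rw [abs_mul, abs_mul, abs_mul, abs_of_pos hy0, abs_of_pos hwi0]; ring
          _ ≤ P * (2 * P) * y + 5 / 4 * (5 / 4 * P) := by
            apply add_le_add
            · apply mul_le_mul_of_nonneg_right _ hy0.le
              exact mul_le_mul hwr h10 (abs_nonneg _) (by linarith)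
            · exact mul_le_mul h13 h9 (abs_nonneg _) (by norm_num)
      have e2 : 5 / 4 * (5 / 4 * P) ≤ P ^ 2 * y := by nlinarith
      have e3 : |(a : ℝ)| * y ≤ 3 * P ^ 2 * y := by linarith
      exact le_of_mul_le_mul_right e3 hy0
    -- `b`
    have h16 : |(b : ℝ)| ≤ 4 * P ^ 2 := by
      have e1 : (b : ℝ) = wr * q - wi * (c * y) - a * x0 := by linarith
      rw [e1]
      calc |wr * q - wi * (c * y) - a * x0| ≤ |wr * q - wi * (c * y)| + |a * x0| := abs_sub _ _
        _ ≤ |wr * q| + |wi * (c * y)| + |a * x0| := by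
          have := abs_sub (wr * q) (wi * (c * y))
          linarith
        _ = |wr| * |q| + wi * |(c : ℝ)| * y + |(a : ℝ)| * |x0| := by
          rw [abs_mul wr, abs_mul wi, abs_mul (c : ℝ), abs_mul (a : ℝ), abs_of_pos hy0,
            abs_of_pos hwi0]
          ring
        _ ≤ P * (5 / 4 * P) + 1 + 3 * P ^ 2 * (1 / 2) := by
          apply add_le_add
          · apply add_le_add _ h14
            exact mul_le_mul hwr h9 (abs_nonneg _) (by linarith)
          · exact mul_le_mul h15 hx (abs_nonneg _) (by positivity)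
        _ ≤ 4 * P ^ 2 := by nlinarith
    exact ⟨by linarith [sq_nonneg P], h16, by nlinarith, by nlinarith⟩

/-- the action in coordinates -/
lemma action (g : SL(2, ℤ)) (e : ℍ) {a b c d : ℤ} (ha : g 0 0 = a) (hb : g 0 1 = b)
    (hc : g 1 0 = c) (hd : g 1 1 = d) :
    a * d - b * c = 1 ∧
    (g • e).re * (c * e.re + d) - (g • e).im * (c * e.im) = a * e.re + b ∧
    (g • e).re * (c * e.im) + (g • e).im * (c * e.re + d) = a * e.im := by
  have hdet : a * d - b * c = 1 := by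
    have := Matrix.SpecialLinearGroup.det_coe g
    rw [Matrix.det_fin_two] at this
    rw [← ha, ← hb, ← hc, ← hd]
    exact this
  have hw : ((g • e : ℍ) : ℂ) * ((c : ℂ) * (e : ℂ) + d) = (a : ℂ) * (e : ℂ) + b := by
    have h0 := UpperHalfPlane.coe_specialLinearGroup_apply g e
    simp only [ha, hb, hc, hd] at h0
    have hne : ((c : ℂ) * (e : ℂ) + d) ≠ 0 := by
      intro h
      have him := congrArg Complex.im h
      have hre := congrArg Complex.re h
      simp at him hre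
      rcases him with h1 | h1
      · subst h1
        simp at hre
        rw [hre] at hdet
        simp at hdet
      · exact e.im_ne_zero h1
    rw [h0]
    simp only [eq_intCast]
    push_cast
    rw [div_mul_cancel₀]
    exact_mod_cast hne
  refine ⟨hdet, ?_, ?_⟩
  · have := congrArg Complex.re hw
    simpa using this
  · have := congrArg Complex.im hw
    simpa using this

lemma fd_im {z : ℍ} (hz : z ∈ FD) : 4 / 5 ≤ z.im := by
  obtain ⟨h1, h2⟩ := hz
  have h3 : ‖(z : ℂ)‖ ^ 2 = z.re ^ 2 + z.im ^ 2 := by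
    rw [← Complex.normSq_eq_norm_sq, Complex.normSq_apply]
    simp [pow_two]
  have h4 : z.re ^ 2 ≤ (1 / 2) ^ 2 := by
    rw [← sq_abs]
    exact pow_le_pow_left₀ (abs_nonneg _) h1 2
  have h5 : 1 ≤ ‖(z : ℂ)‖ ^ 2 := one_le_pow₀ h2
  have h6 := z.im_pos
  by_contra hcon
  rw [not_le] at hcon
  nlinarith

lemma pt_bounds {p : ℕ} (hp : p.Prime) {x : ℕ × ℕ} (hx : x ∈ hk p) {u : ℍ} (hu : u ∈ FD) :
    |(ptH p x u).re| ≤ p ∧ 4 / 5 ≤ (ptH p x u).im * p := by
  have hp2 : (2 : ℝ) ≤ p := by exact_mod_cast hp.two_le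
  have hp0 : (0 : ℝ) < p := by linarith
  have hcoe := HPT.coe_ptH hx u
  have him := fd_im hu
  have hre := hu.1
  rcases (HPT.mem_hk_prime hp x).1 hx with h | ⟨h1, h2⟩
  · subst h
    have e : ((ptH p (1, 0) u : ℍ) : ℂ) = (p : ℂ) * (u : ℂ) := by
      rw [hcoe]
      simp [pt]
    have e1 : (ptH p (1, 0) u).re = p * u.re := by
      have := congrArg Complex.re e
      simpa using this
    have e2 : (ptH p (1, 0) u).im = p * u.im := by
      have := congrArg Complex.im e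
      simpa using this
    rw [e1, e2, abs_mul, abs_of_pos hp0]
    constructor
    · nlinarith
    · have e3 : (1 : ℝ) ≤ p * p := by nlinarith
      have e4 : u.im * 1 ≤ u.im * (p * p) := mul_le_mul_of_nonneg_left e3 u.im_pos.le
      calc (4 / 5 : ℝ) ≤ u.im * 1 := by linarith
        _ ≤ u.im * (p * p) := e4
        _ = p * u.im * p := by ring
  · have hq : p / x.1 = 1 := by rw [h1]; exact Nat.div_self hp.pos
    have e : ((ptH p x u : ℍ) : ℂ) * (p : ℂ) = (u : ℂ) + (x.2 : ℂ) := by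
      rw [hcoe]
      unfold pt
      rw [hq, h1]
      have : (p : ℂ) ≠ 0 := by exact_mod_cast hp.ne_zero
      field_simp
      simp
    have e1 : (ptH p x u).re * p = u.re + x.2 := by
      have := congrArg Complex.re e
      simpa using this
    have e2 : (ptH p x u).im * p = u.im := by
      have := congrArg Complex.im e
      simpa using this
    rw [e2]
    refine ⟨?_, him⟩
    have h3 : (x.2 : ℝ) + 1 ≤ p := by exact_mod_cast h2
    have h4 : |(ptH p x u).re| * p ≤ p := by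
      calc |(ptH p x u).re| * p = |(ptH p x u).re * p| := by rw [abs_mul, abs_of_pos hp0]
        _ = |u.re + x.2| := by rw [e1]
        _ ≤ |u.re| + |(x.2 : ℝ)| := abs_add_le _ _
        _ = |u.re| + x.2 := by rw [abs_of_nonneg (Nat.cast_nonneg _ : (0 : ℝ) ≤ (x.2 : ℝ))]
        _ ≤ p := by linarith
    nlinarith [abs_nonneg (ptH p x u).re]

theorem s_count : S_COUNT := by
  intro p hp x hx z hz
  have hp2 : (2 : ℝ) ≤ p := by exact_mod_cast hp.two_le
  obtain ⟨B, hB⟩ : ∃ B : Finset ℤ, B = Finset.Icc (-(4 * (p : ℤ) ^ 2)) (4 * (p : ℤ) ^ 2) :=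
    ⟨_, rfl⟩
  have hmaps : ∀ g ∈ {g : SL(2, ℤ) | g • z ∈ ptH p x '' FD},
      (g 0 0, g 0 1, g 1 0, g 1 1) ∈ ((B ×ˢ B ×ˢ B ×ˢ B : Finset (ℤ × ℤ × ℤ × ℤ)) :
        Set (ℤ × ℤ × ℤ × ℤ)) := by
    rintro g ⟨u, hu, hgu⟩
    obtain ⟨h0, h1, h2⟩ := action g z (rfl : g 0 0 = g 0 0) (rfl : g 0 1 = g 0 1)
      (rfl : g 1 0 = g 1 0) (rfl : g 1 1 = g 1 1)
    obtain ⟨h3, h4⟩ := pt_bounds hp hx hu
    rw [hgu] at h3 h4
    obtain ⟨k1, k2, k3, k4⟩ := bounds hp2 hz.1 (fd_im hz) h3 (g • z).im_pos h4 h0 h1 h2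
    have hconv : ∀ t : ℤ, |(t : ℝ)| ≤ 4 * (p : ℝ) ^ 2 → t ∈ B := by
      intro t ht
      rw [hB, Finset.mem_Icc, ← abs_le]
      have : ((|t| : ℤ) : ℝ) ≤ ((4 * (p : ℤ) ^ 2 : ℤ) : ℝ) := by
        push_cast
        exact ht
      exact_mod_cast this
    rw [Finset.mem_coe, Finset.mem_product, Finset.mem_product, Finset.mem_product]
    exact ⟨hconv _ k1, hconv _ k2, hconv _ k3, hconv _ k4⟩
  have hinj : Set.InjOn (fun g : SL(2, ℤ) => (g 0 0, g 0 1, g 1 0, g 1 1))
      {g : SL(2, ℤ) | g • z ∈ ptH p x '' FD} := by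
    intro g _ g' _ h
    simp only [Prod.mk.injEq] at h
    obtain ⟨h1, h2, h3, h4⟩ := h
    apply Matrix.SpecialLinearGroup.ext
    intro i j
    fin_cases i <;> fin_cases j
    · exact h1
    · exact h2
    · exact h3
    · exact h4
  constructor
  · exact Set.Finite.of_injOn hmaps hinj (Finset.finite_toSet _)
  · refine (Set.ncard_le_ncard_of_injOn _ hmaps hinj (Finset.finite_toSet _)).trans ?_
    rw [Set.ncard_coe_finset, Finset.card_product, Finset.card_product, Finset.card_product]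
    have hcard : B.card = 8 * p ^ 2 + 1 := by
      rw [hB, Int.card_Icc]
      have : (4 * (p : ℤ) ^ 2 + 1 - -(4 * (p : ℤ) ^ 2)) = ((8 * p ^ 2 + 1 : ℕ) : ℤ) := by
        push_cast
        ring
      rw [this, Int.toNat_natCast]
    rw [hcard]
    have h2 := hp.two_le
    have h3 : 8 * p ^ 2 + 1 ≤ p ^ 6 := by
      have e1 : 2 ^ 4 ≤ p ^ 4 := Nat.pow_le_pow_left h2 4
      have e2 : 2 ^ 2 ≤ p ^ 2 := Nat.pow_le_pow_left h2 2
      calc 8 * p ^ 2 + 1 ≤ 2 ^ 4 * p ^ 2 := by omega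
        _ ≤ p ^ 4 * p ^ 2 := Nat.mul_le_mul_right _ e1
        _ = p ^ 6 := by ring
    calc (8 * p ^ 2 + 1) * ((8 * p ^ 2 + 1) * ((8 * p ^ 2 + 1) * (8 * p ^ 2 + 1)))
        ≤ p ^ 6 * (p ^ 6 * (p ^ 6 * p ^ 6)) := by
          gcongr
      _ = p ^ 24 := by ring

end Pool.Agent.NH65.SP.Count
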