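import Pool.Agent.NH65.SP.Defs
import Pool.Agent.NH65.SN.HPT
import Pool.Agent.NH65.SN.Inv
import Pool.Agent.NH65.SN.Hecke

set_option autoImplicit false
open MeasureTheory Pool.Agent.NH65.SN
open scoped UpperHalfPlane MatrixGroups

namespace Pool.Agent.NH65.SP.Cp

open Pool.Agent.NH65.SP

lemma eig_sum {U : ℂ → ℂ} {p : ℕ} (hp : p.Prime) {c : ℂ} (h : Eig U p c) (z : ℍ) :
    ∑ x ∈ hk p, U (ptH p x z) = c * U z := by
  have h1 : ∀ x ∈ hk p, U (ptH p x z) = U (pt p x z) := fun x hx => by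
    rw [HPT.s_hpt.1 p x hx z]
  rw [Finset.sum_congr rfl h1, Hecke.sum_hk hp.pos (fun x => U (pt p x z)),
    Nat.Prime.sum_divisors hp]
  have := h (z : ℂ) z.im_pos
  rw [← this]
  simp only [pt, Nat.div_self hp.pos, Nat.div_one, Finset.sum_range_one, Nat.cast_one, one_mul,
    Nat.cast_zero, add_zero, div_one]
  rw [add_comm]

theorem s_cp (h1 : S_NORM) (h2 : S_UNFOLD) (h3 : S_COUNT) (h4 : S_AFF) : S_CP := by
  intro U T hU p hp c hc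
  obtain ⟨hinv, hcont⟩ := Inv.s_inv U T hU
  have hnorm := h1 U T hU
  set f : ℍ → ENNReal := fun z => ‖U (z : ℂ)‖ₑ ^ 2 with hf
  have hfm : Measurable f := (hcont.measurable.enorm).pow_const 2
  have hfinv : ∀ g : SL(2, ℤ), ∀ z : ℍ, f (g • z) = f z := by
    intro g z
    simp only [hf, hinv]
  have hcard : (hk p).card = p + 1 := (HPT.s_hpt.2.2.2.1 p hp).1
  -- pointwise bound
  have hpt : ∀ z : ℍ, ‖c‖ₑ ^ 2 * f z ≤ ((p + 1 : ℕ) : ENNReal) * ∑ x ∈ hk p, f (ptH p x z) := by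
    intro z
    have e1 := eig_sum hp hc z
    have e2 : (‖c‖ * ‖U z‖) ^ 2 ≤ ((p + 1 : ℕ) : ℝ) * ∑ x ∈ hk p, ‖U (ptH p x z)‖ ^ 2 := by
      rw [← norm_mul, ← e1, ← hcard]
      calc ‖∑ x ∈ hk p, U (ptH p x z)‖ ^ 2 ≤ (∑ x ∈ hk p, ‖U (ptH p x z)‖) ^ 2 := by
            gcongr
            exact norm_sum_le _ _
        _ ≤ _ := sq_sum_le_card_mul_sum_sq
    have e3 : ∀ a : ℂ, ‖a‖ₑ ^ 2 = ENNReal.ofReal (‖a‖ ^ 2) := by
      intro a
      rw [ENNReal.ofReal_pow (norm_nonneg _), ofReal_norm_eq_enorm]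
    have e4 : ENNReal.ofReal ((‖c‖ * ‖U z‖) ^ 2) ≤
        ENNReal.ofReal (((p + 1 : ℕ) : ℝ) * ∑ x ∈ hk p, ‖U (ptH p x z)‖ ^ 2) :=
      ENNReal.ofReal_le_ofReal e2
    rw [mul_pow, ENNReal.ofReal_mul (by positivity), ← e3, ← e3,
      ENNReal.ofReal_mul (by positivity), ENNReal.ofReal_natCast,
      ENNReal.ofReal_sum_of_nonneg (fun _ _ => by positivity)] at e4
    refine e4.trans (le_of_eq ?_)
    congr 1
    refine Finset.sum_congr rfl fun x _ => ?_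
    rw [← e3]
  -- integrate
  have hint : ‖c‖ₑ ^ 2 ≤ ((p + 1 : ℕ) : ENNReal) * (((p + 1 : ℕ) : ENNReal) * ((p ^ 24 : ℕ) : ENNReal)) := by
    calc ‖c‖ₑ ^ 2 = ‖c‖ₑ ^ 2 * ∫⁻ z in FD, f z ∂(volume : Measure ℍ) := by rw [hnorm, mul_one]
      _ = ∫⁻ z in FD, ‖c‖ₑ ^ 2 * f z ∂(volume : Measure ℍ) := (lintegral_const_mul _ hfm).symm
      _ ≤ ∫⁻ z in FD, ((p + 1 : ℕ) : ENNReal) * ∑ x ∈ hk p, f (ptH p x z) ∂(volume : Measure ℍ) :=
          lintegral_mono hpt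
      _ = ((p + 1 : ℕ) : ENNReal) * ∑ x ∈ hk p, ∫⁻ z in FD, f (ptH p x z) ∂(volume : Measure ℍ) := by
          have hm : ∀ x ∈ hk p, Measurable (fun z => f (ptH p x z)) := fun x hx =>
            hfm.comp (HPT.s_hpt.2.2.2.2 p x hx).measurable
          rw [lintegral_const_mul _ (Finset.measurable_fun_sum _ hm), lintegral_finset_sum _ hm]
      _ ≤ ((p + 1 : ℕ) : ENNReal) * ∑ x ∈ hk p, ((p ^ 24 : ℕ) : ENNReal) := by
          gcongr with x hx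
          obtain ⟨hG, hI⟩ := h4 p hp x hx
          rw [hI f hfm]
          calc ∫⁻ z in ptH p x '' FD, f z ∂(volume : Measure ℍ)
              ≤ ((p ^ 24 : ℕ) : ENNReal) * ∫⁻ z in FD, f z ∂(volume : Measure ℍ) :=
                h2 f hfm hfinv _ hG (p ^ 24) (fun z hz => h3 p hp x hx z hz)
            _ = ((p ^ 24 : ℕ) : ENNReal) := by rw [hnorm, mul_one]
      _ = _ := by rw [Finset.sum_const, hcard, nsmul_eq_mul]
  have hreal : ‖c‖ ^ 2 ≤ ((p : ℝ) + 1) * (((p : ℝ) + 1) * (p : ℝ) ^ 24) := by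
    have e1 : ‖c‖ₑ ^ 2 = ENNReal.ofReal (‖c‖ ^ 2) := by
      rw [ENNReal.ofReal_pow (norm_nonneg _), ofReal_norm_eq_enorm]
    have e2 : ((p + 1 : ℕ) : ENNReal) * (((p + 1 : ℕ) : ENNReal) * ((p ^ 24 : ℕ) : ENNReal)) =
        ENNReal.ofReal (((p : ℝ) + 1) * (((p : ℝ) + 1) * (p : ℝ) ^ 24)) := by
      rw [← Nat.cast_mul, ← Nat.cast_mul, ← ENNReal.ofReal_natCast]
      congr 1
      push_cast
      ring
    rw [e1, e2] at hint
    exact (ENNReal.ofReal_le_ofReal_iff (by positivity)).mp hint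
  have hp2 : (2 : ℝ) ≤ p := by exact_mod_cast hp.two_le
  have h5 : ‖c‖ ^ 2 ≤ ((p : ℝ) ^ 14) ^ 2 := by
    refine hreal.trans ?_
    have e1 : (p : ℝ) + 1 ≤ (p : ℝ) ^ 2 := by nlinarith
    calc ((p : ℝ) + 1) * (((p : ℝ) + 1) * (p : ℝ) ^ 24)
        ≤ (p : ℝ) ^ 2 * ((p : ℝ) ^ 2 * (p : ℝ) ^ 24) := by gcongr
      _ = ((p : ℝ) ^ 14) ^ 2 := by ring
  exact le_of_sq_le_sq h5 (by positivity)

end Pool.Agent.NH65.SP.Cp
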