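import Pool.Agent.NH65.SP.Val
import Pool.Agent.NH65.SN.Inv

set_option autoImplicit false
open MeasureTheory Pool.Agent.NH65.SN
open scoped UpperHalfPlane MatrixGroups

/-!
# Project SP, job SP-17: going down from the cusp
-/

namespace Pool.Agent.NH65.SP.Down

/-- translation to the strip -/
lemma strip {U : ℂ → ℂ} {T : ℝ} (hU : IsHeckeMaass U T) (z : ℍ) :
    ∃ w : ℍ, |w.re| ≤ 1 / 2 ∧ w.im = z.im ∧ U (w : ℂ) = U (z : ℂ) := by
  refine ⟨ModularGroup.T ^ (-round z.re) • z, ?_, ?_, (Pool.Agent.NH65.SN.Inv.s_inv U T hU).1 _ z⟩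
  · rw [UpperHalfPlane.modular_T_zpow_smul, UpperHalfPlane.vadd_re]
    push_cast
    have := abs_sub_round z.re
    rwa [show -(round z.re : ℝ) + z.re = z.re - round z.re by ring]
  · rw [UpperHalfPlane.modular_T_zpow_smul, UpperHalfPlane.vadd_im]

/-- paths down the tree -/
lemma path {c : ℂ} {F : ℕ → ℕ → ℂ}
    (h : ∀ n b, c * F (n + 1) b = F n b + ∑ t ∈ Finset.range 2, F (n + 2) (b + 2 ^ (n + 1) * t)) :
    ∀ n : ℕ, ∃ d b : ℕ, (d = n ∨ d = n + 1) ∧ ‖F 0 0‖ ≤ (‖c‖ + (2 : ℕ)) ^ n * ‖F d b‖ := by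
  have hθ : 1 ≤ ‖c‖ + ((2 : ℕ) : ℝ) := by
    have := norm_nonneg c
    push_cast
    linarith
  intro n
  induction n with
  | zero => exact ⟨0, 0, Or.inl rfl, by simp⟩
  | succ n ih =>
    obtain ⟨d, b, hd, hF⟩ := ih
    rcases hd with rfl | rfl
    · have hk : (‖c‖ + ((2 : ℕ) : ℝ)) ^ (d + 1) = (‖c‖ + ((2 : ℕ) : ℝ)) ^ d * (‖c‖ + ((2 : ℕ) : ℝ)) :=
        pow_succ _ _
      rcases Val.step (by norm_num) (h d b) with h1 | ⟨t, -, h1⟩
      · refine ⟨d + 1, b, Or.inl rfl, ?_⟩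
        rw [hk, mul_assoc]
        exact hF.trans (mul_le_mul_of_nonneg_left h1 (by positivity))
      · refine ⟨d + 2, b + 2 ^ (d + 1) * t, Or.inr rfl, ?_⟩
        rw [hk, mul_assoc]
        exact hF.trans (mul_le_mul_of_nonneg_left h1 (by positivity))
    · refine ⟨n + 1, b, Or.inl rfl, hF.trans ?_⟩
      exact mul_le_mul_of_nonneg_right (pow_le_pow_right₀ hθ (Nat.le_succ n)) (norm_nonneg _)

/-- SP-17 -/
theorem s_down (h1 : S_CP) (h3 : S_REL) : S_DOWN := by
  intro U T hU z hz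
  by_cases hz1 : z.im ≤ 1
  · obtain ⟨w, hw1, hw2, hw3⟩ := strip hU z
    refine ⟨w, hw1, by rw [hw2]; linarith, by rw [hw2]; exact hz1, ?_⟩
    rw [hw3]
    have h : (1 : ℝ) ≤ (2 * z.im) ^ 15 := one_le_pow₀ (by linarith)
    have := norm_nonneg (U (z : ℂ))
    nlinarith
  · push Not at hz1
    obtain ⟨c, hc, hrel⟩ := h3 U T hU 2 Nat.prime_two
    obtain ⟨hper, hR⟩ := hrel z
    have hθ := Val.theta_le le_rfl (h1 U T hU 2 Nat.prime_two c hc)
    have hθ0 : 0 ≤ ‖c‖ + ((2 : ℕ) : ℝ) := by positivity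
    obtain ⟨m, hm1, hm2⟩ := exists_nat_pow_near hz1.le (by norm_num : (1 : ℝ) < 2)
    obtain ⟨d, b, hd, hF⟩ := path (F := fun n b => U (node 2 n b z)) hR (m + 1)
    simp only [Val.node_zero 2 (by norm_num) z] at hF
    obtain ⟨w, hw1, hw2, hw3⟩ := strip hU (node 2 d b z)
    have him : w.im = z.im / 2 ^ d := by
      rw [hw2, im_node 2 d b (by norm_num) z]
      push_cast
      rfl
    have hp0 : (0 : ℝ) < 2 ^ m := by positivity
    refine ⟨w, hw1, ?_, ?_, ?_⟩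
    · rw [him, le_div_iff₀ (by positivity)]
      rcases hd with rfl | rfl
      · rw [pow_succ]; linarith
      · rw [pow_succ, pow_succ]; linarith
    · rw [him, div_le_one (by positivity)]
      rcases hd with rfl | rfl
      · exact hm2.le
      · refine hm2.le.trans ?_
        rw [pow_succ 2 (m + 1)]
        have : (0 : ℝ) < 2 ^ (m + 1) := by positivity
        linarith
    · rw [hw3]
      refine hF.trans (mul_le_mul_of_nonneg_right ?_ (norm_nonneg _))
      calc (‖c‖ + ((2 : ℕ) : ℝ)) ^ (m + 1) ≤ ((((2 : ℕ) : ℝ)) ^ 15) ^ (m + 1) :=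
            pow_le_pow_left₀ hθ0 hθ _
        _ = ((2 : ℝ) ^ (m + 1)) ^ 15 := by
            push_cast
            rw [← pow_mul, ← pow_mul, mul_comm]
        _ ≤ (2 * z.im) ^ 15 := by
            refine pow_le_pow_left₀ (by positivity) ?_ _
            rw [pow_succ]
            linarith

end Pool.Agent.NH65.SP.Down
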