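import Pool.Agent.NH65.SP.Defs
import Pool.Agent.NH65.SN.Inv
import Pool.Agent.NH65.SN.Orb

set_option autoImplicit false
set_option exponentiation.threshold 2000
open MeasureTheory Pool.Agent.NH65.SN
open scoped UpperHalfPlane MatrixGroups Modular

namespace Pool.Agent.NH65.SP.Equiv

open Pool.Agent.NH65.SP

lemma isCompact_box (a r : ℝ) (ha : 0 < a) :
    IsCompact {z : ℍ | |z.re| ≤ 1 / 2 ∧ a ≤ z.im ∧ z.im ≤ r} := by
  have hK : IsCompact {z : ℂ | |z.re| ≤ 1 / 2 ∧ a ≤ z.im ∧ z.im ≤ r} := by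
    apply Metric.isCompact_of_isClosed_isBounded
    · have c1 : IsClosed {z : ℂ | |z.re| ≤ 1 / 2} :=
        isClosed_le Complex.continuous_re.abs continuous_const
      have c2 : IsClosed {z : ℂ | a ≤ z.im} := isClosed_le continuous_const Complex.continuous_im
      have c3 : IsClosed {z : ℂ | z.im ≤ r} := isClosed_le Complex.continuous_im continuous_const
      exact c1.inter (c2.inter c3)
    · rw [Metric.isBounded_iff_subset_closedBall 0]
      refine ⟨1 / 2 + |r|, ?_⟩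
      rintro z ⟨h1, h2, h3⟩
      rw [mem_closedBall_zero_iff]
      have := Complex.norm_le_abs_re_add_abs_im z
      have h4 : |z.im| ≤ |r| := by
        rw [abs_of_nonneg (by linarith)]
        exact h3.trans (le_abs_self r)
      linarith
  have : {z : ℍ | |z.re| ≤ 1 / 2 ∧ a ≤ z.im ∧ z.im ≤ r} =
      UpperHalfPlane.coe ⁻¹' {z : ℂ | |z.re| ≤ 1 / 2 ∧ a ≤ z.im ∧ z.im ≤ r} := by
    ext z; rfl
  rw [this]
  refine UpperHalfPlane.isOpenEmbedding_coe.isInducing.isCompact_preimage_iff ?_ |>.mpr hK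
  rintro z ⟨h1, h2, h3⟩
  exact ⟨⟨z, by show 0 < z.im; linarith⟩, rfl⟩

/-- reduction to the fundamental domain does not increase `max (im w) (1 / im w)` -/
lemma red (w : ℍ) (h : ℝ) (h1 : w.im ≤ h) (h2 : 1 / w.im ≤ h) :
    ∃ g : SL(2, ℤ), 1 / 2 ≤ (g • w).im ∧ (g • w).im ≤ h := by
  obtain ⟨g, hg⟩ := ModularGroup.exists_smul_mem_fd w
  refine ⟨g, ?_, ?_⟩
  · have e1 : 1 ≤ Complex.normSq (g • w : ℍ) := hg.1
    have e2 : |(g • w).re| ≤ 1 / 2 := hg.2
    rw [Complex.normSq_apply] at e1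
    have e3 : (g • w).re ^ 2 ≤ (1 / 2) ^ 2 := by
      rw [← sq_abs]
      exact pow_le_pow_left₀ (abs_nonneg _) e2 2
    have e4 : 0 < (g • w).im := (g • w).im_pos
    have e5 : 1 ≤ (g • w).re * (g • w).re + (g • w).im * (g • w).im := e1
    nlinarith
  · rw [ModularGroup.im_smul_eq_div_normSq]
    have hden : Complex.normSq (UpperHalfPlane.denom g w) =
        ((g 1 0 : ℤ) * w.re + (g 1 1 : ℤ)) ^ 2 + ((g 1 0 : ℤ) * w.im) ^ 2 := by
      rw [ModularGroup.denom_apply, Complex.normSq_apply]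
      simp
      ring
    rw [hden]
    have hy : 0 < w.im := w.im_pos
    by_cases hc : (g 1 0 : ℤ) = 0
    · have hdet := Matrix.SpecialLinearGroup.det_coe g
      rw [Matrix.det_fin_two] at hdet
      rw [hc] at hdet ⊢
      have hdd : (g 1 1 : ℤ) ^ 2 = 1 := by
        have : IsUnit (g 1 1 : ℤ) := IsUnit.of_mul_eq_one (g 0 0 : ℤ) (by linarith)
        rcases Int.isUnit_iff.mp this with h | h <;> rw [h] <;> norm_num
      have hddR : ((g 1 1 : ℤ) : ℝ) ^ 2 = 1 := by exact_mod_cast hdd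
      simp [hddR]
      exact h1
    · have hc1 : (1 : ℝ) ≤ ((g 1 0 : ℤ) : ℝ) ^ 2 := by
        have : (1 : ℤ) ≤ (g 1 0 : ℤ) ^ 2 := by
          have := Int.one_le_abs hc
          nlinarith [sq_abs (g 1 0 : ℤ)]
        exact_mod_cast this
      refine le_trans ?_ h2
      have hcy : w.im ^ 2 ≤ (((g 1 0 : ℤ) : ℝ) * w.im) ^ 2 := by
        rw [mul_pow]
        nlinarith [sq_nonneg w.im]
      have hy2 : 0 < w.im ^ 2 := by positivity
      have hsq := sq_nonneg (((g 1 0 : ℤ) : ℝ) * w.re + (g 1 1 : ℤ))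
      rw [div_le_div_iff₀ (by linarith) hy]
      nlinarith

theorem s_equiv (hS : S_SPREAD) (hD : S_DOWN) : S_EQUIV := by
  intro s
  constructor
  · intro h ε hε
    obtain ⟨C₀, hC₀⟩ := h _ (isCompact_box (1 / 4) 1 (by norm_num)) ε hε
    refine ⟨2 ^ 15 * max C₀ 0, ?_⟩
    intro U T hT hU
    refine ⟨0, by simpa using Real.rpow_nonneg (by linarith) _, fun i => i.elim0, ?_⟩
    intro w hw _
    obtain ⟨v, hv1, hv2, hv3, hv4⟩ := hD U T hU w hw
    have h1 := hC₀ U T hT hU v ⟨hv1, hv2, hv3⟩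
    have hT0 : 0 ≤ T ^ (s + ε) := Real.rpow_nonneg (by linarith) _
    have hw0 : 0 < w.im := w.im_pos
    calc ‖U (w : ℂ)‖ ≤ (2 * w.im) ^ 15 * ‖U (v : ℂ)‖ := hv4
      _ ≤ (2 * w.im) ^ 15 * (max C₀ 0 * T ^ (s + ε)) := by
          gcongr
          exact h1.trans (mul_le_mul_of_nonneg_right (le_max_left _ _) hT0)
      _ = 2 ^ 15 * max C₀ 0 * T ^ (s + ε) * w.im ^ 15 := by ring
  · intro h K hK ε hε
    obtain ⟨C, hC⟩ := h (ε / 9) (by positivity)
    -- bounds of the heights on K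
    obtain ⟨H, hH0, hH1, hH2⟩ : ∃ H : ℝ, 0 < H ∧ (∀ z ∈ K, z.im ≤ H) ∧ (∀ z ∈ K, 1 / z.im ≤ H) := by
      obtain ⟨a, ha⟩ := hK.bddAbove_image (f := fun z : ℍ => z.im)
        (UpperHalfPlane.continuous_im.continuousOn)
      obtain ⟨b, hb⟩ := hK.bddAbove_image (f := fun z : ℍ => 1 / z.im)
        ((continuous_const.div UpperHalfPlane.continuous_im (fun z => z.im_pos.ne')).continuousOn)
      refine ⟨max (max a b) 1, by positivity, ?_, ?_⟩
      · intro z hz
        exact (ha ⟨z, hz, rfl⟩).trans ((le_max_left _ _).trans (le_max_left _ _))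
      · intro z hz
        exact (hb ⟨z, hz, rfl⟩).trans ((le_max_right _ _).trans (le_max_left _ _))
    refine ⟨(2 * H) ^ 15 * 2 ^ 1695 * max C 0, ?_⟩
    intro U T hT hU z₀ hz₀
    obtain ⟨hinv, -⟩ := Pool.Agent.NH65.SN.Inv.s_inv U T hU
    have hiso := Pool.Agent.NH65.SN.Orb.s_orb.1
    have hT0 : 0 < T := by linarith
    obtain ⟨n, hn, ζ, hζ⟩ := hC U T hT hU
    -- move z₀ to the fundamental domain
    obtain ⟨g₀, hg1, hg2⟩ := red z₀ H (hH1 z₀ hz₀) (hH2 z₀ hz₀)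
    set x : ℝ := T ^ (ε / 9 / 228) with hx
    have hx1 : 1 ≤ x := Real.one_le_rpow hT (by positivity)
    set N : ℕ := ⌊x⌋₊ + 1 with hN
    have hN2 : 2 ≤ N := by
      have : 1 ≤ ⌊x⌋₊ := Nat.le_floor (by simpa using hx1)
      omega
    have hNx : (N : ℝ) ≤ 2 * x := by
      rw [hN]; push_cast
      have := Nat.floor_le (show 0 ≤ x by linarith)
      linarith
    have hnN : n < N := by
      have : n ≤ ⌊x⌋₊ := Nat.le_floor hn
      omega
    have hN0 : (0 : ℝ) < N := by exact_mod_cast (by omega : 0 < N)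
    have hN1 : (1 : ℝ) ≤ N := by exact_mod_cast (by omega : 1 ≤ N)
    have hxpow : x ^ 228 = T ^ (ε / 9) := by
      rw [hx, ← Real.rpow_natCast, ← Real.rpow_mul hT0.le]
      congr 1
      push_cast
      ring
    have hx8 : x ^ (228 * 8) = T ^ (8 * (ε / 9)) := by
      rw [pow_mul, hxpow, ← Real.rpow_natCast, ← Real.rpow_mul hT0.le]
      congr 1
      push_cast
      ring
    obtain ⟨w, hw1, hw2⟩ := hS N hN2 U T hU (g₀ • z₀) hg1
    -- some point is outside the discs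
    obtain ⟨i, hi⟩ : ∃ i, ∀ j, ∀ g : SL(2, ℤ), T ^ (-(ε / 9)) / 2 ^ 229 ≤ dist (w i) (g • ζ j) := by
      by_contra hcon
      push Not at hcon
      choose f g hfg using hcon
      obtain ⟨i, i', hne, hff⟩ := Fintype.exists_ne_map_eq_of_card_lt f (by simpa using hnN)
      have h1 := hw2 i i' hne (g i * (g i')⁻¹)
      have h2 : dist (w i) ((g i * (g i')⁻¹) • w i') <
          T ^ (-(ε / 9)) / 2 ^ 229 + T ^ (-(ε / 9)) / 2 ^ 229 := by
        calc dist (w i) ((g i * (g i')⁻¹) • w i')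
            ≤ dist (w i) (g i • ζ (f i)) + dist (g i • ζ (f i)) ((g i * (g i')⁻¹) • w i') :=
              dist_triangle _ _ _
          _ < _ := by
              refine add_lt_add (hfg i) ?_
              have e1 : dist (g i • ζ (f i)) ((g i * (g i')⁻¹) • w i') =
                  dist (w i') (g i' • ζ (f i')) := by
                rw [hff, dist_comm, mul_smul, hiso]
                rw [← hiso (g i') ((g i')⁻¹ • w i') (ζ (f i')), smul_inv_smul]
              rw [e1]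
              exact hfg i'
      have h3 : T ^ (-(ε / 9)) / 2 ^ 229 + T ^ (-(ε / 9)) / 2 ^ 229 ≤ ((N : ℝ) ^ 228)⁻¹ := by
        have e1 : (N : ℝ) ^ 228 ≤ 2 ^ 228 * T ^ (ε / 9) := by
          calc (N : ℝ) ^ 228 ≤ (2 * x) ^ 228 := by gcongr
            _ = 2 ^ 228 * T ^ (ε / 9) := by rw [mul_pow, hxpow]
        have e2 : 0 < T ^ (ε / 9) := Real.rpow_pos_of_pos hT0 _
        rw [Real.rpow_neg hT0.le]
        calc (T ^ (ε / 9))⁻¹ / 2 ^ 229 + (T ^ (ε / 9))⁻¹ / 2 ^ 229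
            = (2 ^ 228 * T ^ (ε / 9))⁻¹ := by
              rw [mul_inv, pow_succ]
              ring
          _ ≤ ((N : ℝ) ^ 228)⁻¹ := by gcongr
      linarith
    obtain ⟨hwi1, hwi2, hwi3⟩ := hw1 i
    -- move it to the fundamental domain
    have hN76 : (1 : ℝ) ≤ (N : ℝ) ^ 76 := one_le_pow₀ hN1
    obtain ⟨g₁, hg3, hg4⟩ := red (w i) ((N : ℝ) ^ 76) (hwi2.trans hN76) (by
      rw [one_div]
      exact (inv_le_comm₀ (by positivity) (w i).im_pos).mp hwi1)
    have hval := hζ (g₁ • w i) hg3 (fun j g => by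
      have := hi j (g₁⁻¹ * g)
      rw [← hiso g₁ (w i), mul_smul, smul_inv_smul] at this
      exact this)
    rw [hinv] at hval
    rw [hinv] at hwi3
    have hTs : 0 ≤ T ^ (s + ε / 9) := Real.rpow_nonneg hT0.le _
    have him : 0 < (g₁ • w i).im := (g₁ • w i).im_pos
    have him0 : 0 < (g₀ • z₀).im := (g₀ • z₀).im_pos
    have hM : 0 ≤ max C 0 := le_max_right _ _
    calc ‖U (z₀ : ℂ)‖ ≤ (2 * (g₀ • z₀).im) ^ 15 * (N : ℝ) ^ 555 * ‖U (w i : ℂ)‖ := hwi3
      _ ≤ (2 * H) ^ 15 * (N : ℝ) ^ 555 * (max C 0 * T ^ (s + ε / 9) * ((N : ℝ) ^ 76) ^ 15) := by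
          gcongr
          calc ‖U (w i : ℂ)‖ ≤ C * T ^ (s + ε / 9) * (g₁ • w i).im ^ 15 := hval
            _ ≤ max C 0 * T ^ (s + ε / 9) * ((N : ℝ) ^ 76) ^ 15 := by
                gcongr
                exact le_max_left _ _
      _ = (2 * H) ^ 15 * max C 0 * T ^ (s + ε / 9) * (N : ℝ) ^ 1695 := by ring
      _ ≤ (2 * H) ^ 15 * max C 0 * T ^ (s + ε / 9) * (2 ^ 1695 * T ^ (8 * (ε / 9))) := by
          gcongr
          calc (N : ℝ) ^ 1695 ≤ (2 * x) ^ 1695 := by gcongr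
            _ = 2 ^ 1695 * x ^ 1695 := by rw [mul_pow]
            _ ≤ 2 ^ 1695 * x ^ (228 * 8) := by
                apply mul_le_mul_of_nonneg_left _ (by positivity)
                exact pow_le_pow_right₀ hx1 (by norm_num)
            _ = 2 ^ 1695 * T ^ (8 * (ε / 9)) := by rw [hx8]
      _ = (2 * H) ^ 15 * 2 ^ 1695 * max C 0 * (T ^ (s + ε / 9) * T ^ (8 * (ε / 9))) := by ring
      _ = (2 * H) ^ 15 * 2 ^ 1695 * max C 0 * T ^ (s + ε) := by
          rw [← Real.rpow_add hT0]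
          congr 2
          ring

end Pool.Agent.NH65.SP.Equiv
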