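import Pool.Agent.NH65.SP.Defs

/-!
SP-13 INERT (helper54): a small inert prime.
-/

set_option autoImplicit false
open Pool.Agent.NH65.SN Pool.Agent.NH65.SP
open scoped UpperHalfPlane MatrixGroups

namespace Pool.Agent.NH65.SP.Inert

/-- A Jacobi symbol `-1` comes from a Legendre symbol `-1`. -/
theorem exists_legendre (a : ℤ) : ∀ m : ℕ, m ≠ 0 → jacobiSym a m = -1 →
    ∃ p : ℕ, p.Prime ∧ p ∣ m ∧ jacobiSym a p = -1 := by
  intro m
  induction m using Nat.recOnMul with
  | zero => exact fun h => absurd rfl h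
  | one =>
    intro _ h
    rw [jacobiSym.one_right] at h
    norm_num at h
  | prime p hp => exact fun _ h => ⟨p, hp, dvd_rfl, h⟩
  | mul x y hx hy =>
    intro h0 h
    have hx0 : x ≠ 0 := left_ne_zero_of_mul h0
    have hy0 : y ≠ 0 := right_ne_zero_of_mul h0
    have : NeZero x := ⟨hx0⟩
    have : NeZero y := ⟨hy0⟩
    rw [jacobiSym.mul_right] at h
    rcases jacobiSym.trichotomy a x with h1 | h1 | h1
    · rw [h1, zero_mul] at h
      norm_num at h
    · rw [h1, one_mul] at h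
      obtain ⟨p, hp, hpy, h2⟩ := hy hy0 h
      exact ⟨p, hp, Dvd.dvd.mul_left hpy _, h2⟩
    · obtain ⟨p, hp, hpx, h2⟩ := hx hx0 h1
      exact ⟨p, hp, Dvd.dvd.mul_right hpx _, h2⟩

end Pool.Agent.NH65.SP.Inert

namespace Pool.Agent.NH65.SP

open Inert in
theorem s_inert : S_INERT := by
  intro D hD
  obtain ⟨m, hm⟩ : ∃ m : ℕ, m + 1 = 12 * D := ⟨12 * D - 1, by omega⟩
  have hm2 : m % 2 = 1 := by omega
  have hm4 : m % 4 = 3 := by omega
  have hm3 : m % 3 = 2 := by omega
  have hm0 : m ≠ 0 := by omega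
  have hodd : Odd m := Nat.odd_iff.2 hm2
  -- `J(12 D | m) = 1`
  have h1 : jacobiSym (((12 * D : ℕ) : ℤ)) m = 1 := by
    have h2 : (((12 * D : ℕ) : ℤ)) % m = 1 % m := by
      rw [← hm]
      push_cast
      rw [Int.add_emod, Int.emod_self, zero_add, Int.emod_emod_of_dvd _ dvd_rfl]
    rw [jacobiSym.mod_left, h2, ← jacobiSym.mod_left, jacobiSym.one_left]
  -- `J(3 | m) = 1`
  have h3 : jacobiSym 3 m = 1 := by
    have h4 := jacobiSym.quadratic_reciprocity_three_mod_four (a := 3) (b := m) (by norm_num) hm4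
    have h5 : jacobiSym (m : ℤ) 3 = -1 := by
      rw [jacobiSym.mod_left]
      have : ((m : ℤ)) % ((3 : ℕ) : ℤ) = 2 := by
        push_cast
        omega
      rw [this]
      norm_num
    rw [h5] at h4
    simpa using h4
  have h6 : jacobiSym 2 m ^ 2 = 1 := by
    refine jacobiSym.sq_one ?_
    have : Nat.Coprime 2 m := (Nat.coprime_two_left).2 hodd
    exact_mod_cast this
  have h7 : jacobiSym (D : ℤ) m = 1 := by
    have h8 : (((12 * D : ℕ) : ℤ)) = 2 * 2 * 3 * (D : ℤ) := by push_cast; ring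
    rw [h8, jacobiSym.mul_left, jacobiSym.mul_left, jacobiSym.mul_left, h3, ← sq, h6] at h1
    simpa using h1
  have h9 : jacobiSym (-1) m = -1 := by
    rw [jacobiSym.at_neg_one hodd]
    exact ZMod.χ₄_nat_three_mod_four hm4
  have h10 : jacobiSym (-(D : ℤ)) m = -1 := by
    have : (-(D : ℤ)) = (-1) * (D : ℤ) := by ring
    rw [this, jacobiSym.mul_left, h7, h9]
    norm_num
  obtain ⟨p, hp, hpm, hJ⟩ := exists_legendre _ m hm0 h10
  have hfact : Fact p.Prime := ⟨hp⟩
  refine ⟨p, hp, ?_, ?_, ?_⟩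
  · -- `p ≥ 5`
    by_contra hlt
    have h2 := hp.two_le
    have : p = 2 ∨ p = 3 ∨ p = 4 := by omega
    rcases this with h | h | h
    · rw [h] at hpm; omega
    · rw [h] at hpm; omega
    · rw [h] at hp; revert hp; decide
  · have := Nat.le_of_dvd (by omega) hpm
    omega
  · intro x hx
    rw [← jacobiSym.legendreSym.to_jacobiSym] at hJ
    rw [legendreSym.eq_neg_one_iff] at hJ
    apply hJ
    refine ⟨(x : ZMod p), ?_⟩
    have h11 : ((x ^ 2 + D : ℤ) : ZMod p) = 0 := (ZMod.intCast_zmod_eq_zero_iff_dvd _ p).2 hx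
    push_cast at h11 ⊢
    linear_combination (-1 : ZMod p) * h11

end Pool.Agent.NH65.SP
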