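import Pool.Agent.NH65.SP.Defs

set_option autoImplicit false
open scoped UpperHalfPlane MatrixGroups

/-!
Project SP, job KAP: the distance of two nodes.
-/

namespace Pool.Agent.NH65.SP.Kap

theorem s_kap : S_KAP := by
  intro p n b m b' hp g z
  have hdet : g.1 0 0 * g.1 1 1 - g.1 0 1 * g.1 1 0 = 1 := by
    have := g.2
    rwa [Matrix.det_fin_two] at this
  refine ⟨?_, ?_⟩
  · set w := node p n b z with hw
    set w' := node p m b' z with hw'
    have cw : (w : ℂ) = ((z : ℂ) + (b : ℂ)) / (p : ℂ) ^ n := coe_node p n b hp z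
    have cw' : (w' : ℂ) = ((z : ℂ) + (b' : ℂ)) / (p : ℂ) ^ m := coe_node p m b' hp z
    have iw : w.im = z.im / (p : ℝ) ^ n := im_node p n b hp z
    have iw' : w'.im = z.im / (p : ℝ) ^ m := im_node p m b' hp z
    have hp0 : (p : ℂ) ≠ 0 := by exact_mod_cast hp.ne'
    have hp0' : (p : ℝ) ≠ 0 := by exact_mod_cast hp.ne'
    set D : ℂ := ((g.1 1 0 : ℤ) : ℂ) * (w' : ℂ) + ((g.1 1 1 : ℤ) : ℂ) with hD
    have hden : UpperHalfPlane.denom (g : GL (Fin 2) ℝ) w' = D := by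
      rw [hD]
      simp [UpperHalfPlane.denom]
    have hD0 : D ≠ 0 := by
      rw [← hden]
      exact UpperHalfPlane.denom_ne_zero _ _
    have hgi : (g • w').im = w'.im / Complex.normSq D := by
      rw [ModularGroup.im_smul_eq_div_normSq]
      congr 2
    have hgc : ((g • w' : ℍ) : ℂ) =
        (((g.1 0 0 : ℤ) : ℂ) * (w' : ℂ) + ((g.1 0 1 : ℤ) : ℂ)) / D := by
      rw [UpperHalfPlane.coe_specialLinearGroup_apply]
      simp [hD]
    set Q : ℂ := ((kap p n b m b' g 1 0 : ℤ) : ℂ) * (z : ℂ) ^ 2 +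
      ((kap p n b m b' g 1 1 - kap p n b m b' g 0 0 : ℤ) : ℂ) * (z : ℂ) +
      ((-(kap p n b m b' g 0 1) : ℤ) : ℂ) with hQ
    have hsub : (w : ℂ) - ((g • w' : ℍ) : ℂ) = Q / ((p : ℂ) ^ n * (D * (p : ℂ) ^ m)) := by
      rw [hgc, cw, eq_div_iff (by positivity), sub_mul, div_mul_eq_mul_div, div_mul_eq_mul_div,
        hQ, kap00, kap01, kap10, kap11]
      have e1 : ((z : ℂ) + (b : ℂ)) * ((p : ℂ) ^ n * (D * (p : ℂ) ^ m)) / (p : ℂ) ^ n =
          ((z : ℂ) + (b : ℂ)) * (D * (p : ℂ) ^ m) := by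
        field_simp
      have e2 : (((g.1 0 0 : ℤ) : ℂ) * (w' : ℂ) + ((g.1 0 1 : ℤ) : ℂ)) *
          ((p : ℂ) ^ n * (D * (p : ℂ) ^ m)) / D =
          (p : ℂ) ^ n * (((g.1 0 0 : ℤ) : ℂ) * (w' : ℂ) * (p : ℂ) ^ m +
            ((g.1 0 1 : ℤ) : ℂ) * (p : ℂ) ^ m) := by
        field_simp
      have e3 : (w' : ℂ) * (p : ℂ) ^ m = (z : ℂ) + (b' : ℂ) := by
        rw [cw']
        field_simp
      have e4 : D * (p : ℂ) ^ m = ((g.1 1 0 : ℤ) : ℂ) * ((z : ℂ) + (b' : ℂ)) +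
          ((g.1 1 1 : ℤ) : ℂ) * (p : ℂ) ^ m := by
        rw [hD, add_mul, mul_assoc, e3]
      rw [e1, e2, mul_assoc (((g.1 0 0 : ℤ) : ℂ)), e3, e4]
      push_cast
      ring
    have hy : z.im ≠ 0 := z.im_pos.ne'
    have hnD : Complex.normSq D ≠ 0 := by
      rw [Ne, Complex.normSq_eq_zero]
      exact hD0
    rw [UpperHalfPlane.cosh_dist, Complex.dist_eq, hsub, norm_div, norm_mul, norm_mul, norm_pow,
      norm_pow, Complex.norm_natCast, hgi, iw, iw', Complex.normSq_eq_norm_sq] at *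
    have hnD' : ‖D‖ ≠ 0 := by
      rw [Ne, norm_eq_zero]
      exact hD0
    field_simp
    ring
  · rw [kap00, kap01, kap10, kap11]
    have e : (p : ℤ) ^ (n + m) = (p : ℤ) ^ n * (p : ℤ) ^ m := pow_add _ _ _
    rw [e]
    linear_combination (4 * (p : ℤ) ^ n * (p : ℤ) ^ m) * hdet

end Pool.Agent.NH65.SP.Kap
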