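import Pool.Agent.NH65.SP.Defs

set_option autoImplicit false
open Pool.Agent.NH65.SN MeasureTheory
open scoped UpperHalfPlane MatrixGroups

namespace Pool.Agent.NH65.SP.Rel

open Pool.Agent.NH65.SP

theorem s_rel : S_REL := by
  intro U T hU p hp
  obtain ⟨-, hinv, -, -, -, hH⟩ := hU
  obtain ⟨c, hc⟩ := hH p hp.one_le
  have hp0 : 0 < p := hp.pos
  have hpc : (p : ℂ) ≠ 0 := by exact_mod_cast hp.ne_zero
  have hEig : Eig U p c := by
    intro z hz
    rw [← hc z hz, Nat.Prime.sum_divisors hp]
    simp [Nat.div_self hp0, add_comm]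
  refine ⟨c, hEig, fun z => ⟨?_, ?_⟩⟩
  · intro n b
    rw [coe_node p n _ hp0, coe_node p n _ hp0]
    have him := im_pos_aux p n b hp0 z
    have hpn : (p : ℂ) ^ n ≠ 0 := pow_ne_zero _ hpc
    rw [← (hinv _ him).1]
    congr 1
    push_cast
    field_simp
    ring
  · intro n b
    have him := im_pos_aux p (n + 1) b hp0 z
    have hpn : (p : ℂ) ^ n ≠ 0 := pow_ne_zero _ hpc
    have h := hEig _ him
    rw [coe_node p (n + 1) _ hp0, coe_node p n _ hp0, ← h]
    congr 1
    · congr 1
      rw [pow_succ]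
      field_simp
    · refine Finset.sum_congr rfl fun t _ => ?_
      rw [coe_node p (n + 2) _ hp0]
      congr 1
      rw [pow_succ, pow_succ]
      push_cast
      field_simp
      ring

end Pool.Agent.NH65.SP.Rel
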