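import Pool.Agent.NH65.SP.Defs

set_option autoImplicit false
open Pool.Agent.NH65.SN
open scoped UpperHalfPlane MatrixGroups

namespace Pool.Agent.NH65.SP.Scal

open Pool.Agent.NH65.SP

theorem s_scal : S_SCAL := by
  intro p hp n b m b' hb hb' g h1 h2 h3
  rw [kap10] at h1
  rw [kap11, kap00, h1] at h2
  rw [kap01, h1] at h3
  have hdet := Matrix.SpecialLinearGroup.det_coe g
  rw [Matrix.det_fin_two, h1] at hdet
  have hpn : (0 : ℤ) < (p : ℤ) ^ n := by
    have : (0 : ℤ) < p := by exact_mod_cast hp.pos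
    positivity
  have hpm : (0 : ℤ) < (p : ℤ) ^ m := by
    have : (0 : ℤ) < p := by exact_mod_cast hp.pos
    positivity
  have hbz : (b : ℤ) < (p : ℤ) ^ n := by exact_mod_cast hb
  have hbz' : (b' : ℤ) < (p : ℤ) ^ m := by exact_mod_cast hb'
  have hb0 : (0 : ℤ) ≤ b := by positivity
  have hb0' : (0 : ℤ) ≤ b' := by positivity
  have hdet' : g.1 0 0 * g.1 1 1 = 1 := by linarith
  -- g00 = g11 = ±1
  have hu : g.1 0 0 = g.1 1 1 ∧ (g.1 0 0 = 1 ∨ g.1 0 0 = -1) := by
    rcases Int.isUnit_iff.mp (IsUnit.of_mul_eq_one _ hdet') with h | h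
    · rw [h] at hdet'
      exact ⟨by rw [h]; linarith, Or.inl h⟩
    · rw [h] at hdet'
      exact ⟨by rw [h]; linarith, Or.inr h⟩
  obtain ⟨h4, h5⟩ := hu
  have hpow : (p : ℤ) ^ m = (p : ℤ) ^ n := by
    rw [← h4] at h2
    rcases h5 with h | h <;> rw [h] at h2 <;> linarith
  have hnm : n = m := by
    have : p ^ m = p ^ n := by exact_mod_cast hpow
    exact (Nat.pow_right_injective hp.two_le this).symm
  refine ⟨hnm, ?_⟩
  rw [hpow] at h3 hbz'
  have h6 : (p : ℤ) ^ n * (g.1 0 0 * b' + g.1 0 1 * (p : ℤ) ^ n - b * g.1 1 1) = 0 := by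
    rw [← h3]; ring
  have h7 : g.1 0 0 * b' + g.1 0 1 * (p : ℤ) ^ n - b * g.1 1 1 = 0 := by
    rcases mul_eq_zero.mp h6 with h | h
    · exact absurd h hpn.ne'
    · exact h
  rw [← h4] at h7
  have h8 : g.1 0 1 = 0 := by
    by_contra hne
    have h9 : 1 ≤ |g.1 0 1| := Int.one_le_abs hne
    have h10 : (p : ℤ) ^ n ≤ |g.1 0 1 * (p : ℤ) ^ n| := by
      rw [abs_mul, abs_of_pos hpn]
      nlinarith
    have h11 : |g.1 0 1 * (p : ℤ) ^ n| < (p : ℤ) ^ n := by
      rcases h5 with h | h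
      · rw [h] at h7
        rw [show g.1 0 1 * (p : ℤ) ^ n = b - b' by linarith, abs_lt]
        constructor <;> linarith
      · rw [h] at h7
        rw [show g.1 0 1 * (p : ℤ) ^ n = b' - b by linarith, abs_lt]
        constructor <;> linarith
    linarith
  rw [h8] at h7
  rcases h5 with h | h
  · rw [h] at h7
    have : (b : ℤ) = b' := by linarith
    exact_mod_cast this
  · rw [h] at h7
    have : (b : ℤ) = b' := by linarith
    exact_mod_cast this

end Pool.Agent.NH65.SP.Scal
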