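import Pool.Agent.NH65.SP.Defs

set_option autoImplicit false
open Pool.Agent.NH65.SN MeasureTheory
open scoped UpperHalfPlane MatrixGroups

namespace Pool.Agent.NH65.SP.Spread

open Pool.Agent.NH65.SP

theorem s_spread (h1 : S_VAL) (h2 : S_SEP) (h3 : S_DOWN) : S_SPREAD := by
  intro N hN U T hU z hz
  obtain ⟨w₀, -, hw1, hw2, hw3⟩ := h3 U T hU z hz
  obtain ⟨p, hp, k, hk1, hk2, hsep⟩ := h2 N hN w₀ hw1 hw2
  obtain ⟨S, hS, hval⟩ := h1 U T hU p hp w₀ k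
  have hcard : Fintype.card (Fin N) ≤ Fintype.card S := by
    rw [Fintype.card_fin, Fintype.card_coe, hS]
    exact hk1
  obtain ⟨e⟩ : Nonempty (Fin N ↪ S) := Function.Embedding.nonempty_of_card_le hcard
  have hN0 : (0 : ℝ) < N := by exact_mod_cast (by omega : 0 < N)
  have hN2 : (2 : ℝ) ≤ N := by exact_mod_cast hN
  have hp0 : (0 : ℝ) < p := by exact_mod_cast hp.pos
  have hp1 : (1 : ℝ) ≤ p := by exact_mod_cast hp.one_le
  have hpk : ((p : ℝ) ^ (k + 1)) ≤ (N : ℝ) ^ 37 := by exact_mod_cast hk2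
  have hz0 : 0 < z.im := z.im_pos
  refine ⟨fun i => node p (e i).1.1 (e i).1.2 w₀, ?_, ?_⟩
  · intro i
    obtain ⟨g1, g2, g3, g4, g5⟩ := hval _ (e i).2
    refine ⟨?_, ?_, ?_⟩
    · rw [im_node p _ _ hp.pos]
      have e1 : (p : ℝ) ^ ((e i).1.1) ≤ (N : ℝ) ^ 74 := by
        calc (p : ℝ) ^ ((e i).1.1) ≤ (p : ℝ) ^ ((k + 1) * 2) :=
              pow_le_pow_right₀ hp1 (by omega)
          _ = ((p : ℝ) ^ (k + 1)) ^ 2 := by rw [pow_mul]
          _ ≤ ((N : ℝ) ^ 37) ^ 2 := by gcongr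
          _ = (N : ℝ) ^ 74 := by rw [← pow_mul]
      have e2 : (4 : ℝ) ≤ (N : ℝ) ^ 2 := by nlinarith
      have e3 : (N : ℝ) ^ 76 = (N : ℝ) ^ 74 * (N : ℝ) ^ 2 := by rw [← pow_add]
      have e4 : (0 : ℝ) < (N : ℝ) ^ 74 := by positivity
      rw [inv_eq_one_div, div_le_div_iff₀ (by positivity) (by positivity), one_mul, e3]
      calc (p : ℝ) ^ ((e i).1.1) ≤ (N : ℝ) ^ 74 := e1
        _ = 1 / 4 * ((N : ℝ) ^ 74 * 4) := by ring
        _ ≤ w₀.im * ((N : ℝ) ^ 74 * (N : ℝ) ^ 2) := by gcongr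
    · rw [im_node p _ _ hp.pos]
      rw [div_le_one (by positivity)]
      exact hw2.trans (one_le_pow₀ hp1)
    · calc ‖U (z : ℂ)‖ ≤ (2 * z.im) ^ 15 * ‖U (w₀ : ℂ)‖ := hw3
        _ ≤ (2 * z.im) ^ 15 * (((p : ℝ) ^ (k + 1)) ^ 15 * ‖U (node p (e i).1.1 (e i).1.2 w₀)‖) := by
            gcongr
        _ ≤ (2 * z.im) ^ 15 * (((N : ℝ) ^ 37) ^ 15 * ‖U (node p (e i).1.1 (e i).1.2 w₀)‖) := by
            gcongr
        _ = (2 * z.im) ^ 15 * (N : ℝ) ^ 555 * ‖U (node p (e i).1.1 (e i).1.2 w₀)‖ := by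
            rw [← pow_mul, mul_assoc]
  · intro i j hij g
    obtain ⟨g1, g2, g3, g4, -⟩ := hval _ (e i).2
    obtain ⟨g1', g2', g3', g4', -⟩ := hval _ (e j).2
    refine hsep _ _ _ _ g1 g2 g1' g2' g3 g3' g4 g4' ?_ g
    intro h
    apply hij
    apply e.injective
    apply Subtype.ext
    exact Prod.ext (Prod.mk.inj h).1 (Prod.mk.inj h).2

end Pool.Agent.NH65.SP.Spread
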