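import Pool.Agent.NH65.SP.Defs

set_option autoImplicit false

/-!
Project SP, job TREE: large values on many branches of the tree.
-/

namespace Pool.Agent.NH65.SP.Tree

theorem period (p : ℕ) (F : ℕ → ℕ → ℂ) (hper : ∀ n b, F n (b + p ^ n) = F n b) (n b j : ℕ) :
    F n (b + p ^ n * j) = F n b := by
  induction j with
  | zero => simp
  | succ j ih => rw [Nat.mul_succ, ← add_assoc, hper, ih]

theorem period' (p : ℕ) (F : ℕ → ℕ → ℂ) (hper : ∀ n b, F n (b + p ^ n) = F n b) (n b : ℕ) :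
    F n (b % p ^ n) = F n b := by
  conv_rhs => rw [← Nat.mod_add_div b (p ^ n)]
  rw [period p F hper]

theorem child (p : ℕ) (hp : 1 ≤ p) (c : ℂ) (F : ℕ → ℕ → ℂ)
    (hper : ∀ n b, F n (b + p ^ n) = F n b)
    (hrel : ∀ n b, c * F (n + 1) b = F n b + ∑ t ∈ Finset.range p, F (n + 2) (b + p ^ (n + 1) * t))
    (n b t : ℕ) : ∃ v : ℕ × ℕ, n + 1 ≤ v.1 ∧ v.1 ≤ n + 2 ∧ v.2 ≡ b + p ^ n * t [MOD p ^ (n + 1)] ∧
      ‖F n b‖ ≤ (‖c‖ + p) * ‖F v.1 v.2‖ := by
  by_cases h1 : ‖F n b‖ ≤ (‖c‖ + p) * ‖F (n + 1) (b + p ^ n * t)‖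
  · exact ⟨(n + 1, b + p ^ n * t), le_rfl, by simp, Nat.ModEq.refl _, h1⟩
  by_cases h2 : ∃ s, ‖F n b‖ ≤ (‖c‖ + p) * ‖F (n + 2) (b + p ^ n * t + p ^ (n + 1) * s)‖
  · obtain ⟨s, hs⟩ := h2
    refine ⟨(n + 2, b + p ^ n * t + p ^ (n + 1) * s), by simp, le_rfl, ?_, hs⟩
    change b + p ^ n * t + p ^ (n + 1) * s ≡ b + p ^ n * t [MOD p ^ (n + 1)]
    simp [Nat.ModEq, Nat.add_mul_mod_self_left]
  exfalso
  push Not at h1 h2
  have hrel1 := hrel n (b + p ^ n * t)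
  rw [period p F hper] at hrel1
  have hθ : 0 < ‖c‖ + p := by
    have : (1 : ℝ) ≤ p := by exact_mod_cast hp
    have := norm_nonneg c
    linarith
  have h3 : ‖F n b‖ ≤ ‖c‖ * ‖F (n + 1) (b + p ^ n * t)‖ +
      ∑ s ∈ Finset.range p, ‖F (n + 2) (b + p ^ n * t + p ^ (n + 1) * s)‖ := by
    have h4 : F n b = c * F (n + 1) (b + p ^ n * t) -
        ∑ s ∈ Finset.range p, F (n + 2) (b + p ^ n * t + p ^ (n + 1) * s) := by
      rw [hrel1]
      ring
    calc ‖F n b‖ = ‖c * F (n + 1) (b + p ^ n * t) -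
        ∑ s ∈ Finset.range p, F (n + 2) (b + p ^ n * t + p ^ (n + 1) * s)‖ := by rw [← h4]
      _ ≤ ‖c * F (n + 1) (b + p ^ n * t)‖ +
          ‖∑ s ∈ Finset.range p, F (n + 2) (b + p ^ n * t + p ^ (n + 1) * s)‖ := norm_sub_le _ _
      _ ≤ _ := by
        rw [norm_mul]
        gcongr
        exact norm_sum_le _ _
  have h5 : (‖c‖ + p) * (‖c‖ * ‖F (n + 1) (b + p ^ n * t)‖) ≤ ‖c‖ * ‖F n b‖ := by
    have := mul_le_mul_of_nonneg_left h1.le (norm_nonneg c)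
    linarith
  have h6 : (‖c‖ + p) * ∑ s ∈ Finset.range p, ‖F (n + 2) (b + p ^ n * t + p ^ (n + 1) * s)‖ <
      p * ‖F n b‖ := by
    rw [Finset.mul_sum]
    have h7 : ∑ s ∈ Finset.range p, (‖c‖ + p) * ‖F (n + 2) (b + p ^ n * t + p ^ (n + 1) * s)‖ <
        ∑ _s ∈ Finset.range p, ‖F n b‖ :=
      Finset.sum_lt_sum_of_nonempty ⟨0, Finset.mem_range.2 hp⟩ fun s _ => h2 s
    rwa [Finset.sum_const, Finset.card_range, nsmul_eq_mul] at h7
  have h8 := mul_le_mul_of_nonneg_left h3 hθ.le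
  rw [mul_add] at h8
  nlinarith

theorem tree (p : ℕ) (hp : 1 ≤ p) (c : ℂ) (F : ℕ → ℕ → ℂ)
    (hper : ∀ n b, F n (b + p ^ n) = F n b)
    (hrel : ∀ n b, c * F (n + 1) b = F n b + ∑ t ∈ Finset.range p, F (n + 2) (b + p ^ (n + 1) * t)) :
    ∀ k n b : ℕ, ∃ S : Finset (ℕ × ℕ), S.card = p ^ k ∧ ∀ s ∈ S,
      n ≤ s.1 ∧ s.1 ≤ n + 2 * k ∧ s.2 < p ^ s.1 ∧ s.2 % p ^ n = b % p ^ n ∧
      ‖F n b‖ ≤ (‖c‖ + p) ^ k * ‖F s.1 s.2‖ := by
  classical
  intro k
  induction k with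
  | zero =>
    intro n b
    refine ⟨{(n, b % p ^ n)}, by simp, ?_⟩
    intro s hs
    rw [Finset.mem_singleton] at hs
    subst hs
    have hpos : 0 < p ^ n := by positivity
    refine ⟨le_rfl, by simp, Nat.mod_lt _ hpos, Nat.mod_mod _ _, ?_⟩
    rw [period' p F hper, pow_zero, one_mul]
  | succ k ih =>
    intro n b
    choose v hv1 hv2 hv3 hv4 using child p hp c F hper hrel n b
    choose S hS using fun t => ih (v t).1 (v t).2
    have hmod : ∀ t, ∀ s ∈ S t, s.2 ≡ b + p ^ n * t [MOD p ^ (n + 1)] := by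
      intro t s hs
      have h1 : s.2 ≡ (v t).2 [MOD p ^ (v t).1] := ((hS t).2 s hs).2.2.2.1
      exact (h1.of_dvd (pow_dvd_pow p (hv1 t))).trans (hv3 t)
    have hθ : 0 ≤ ‖c‖ + p := by positivity
    refine ⟨(Finset.range p).biUnion S, ?_, ?_⟩
    · rw [Finset.card_biUnion]
      · rw [Finset.sum_congr rfl fun t _ => (hS t).1, Finset.sum_const, Finset.card_range,
          smul_eq_mul, pow_succ, mul_comm]
      · intro t ht t' ht' hne
        change Disjoint (S t) (S t')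
        rw [Finset.disjoint_left]
        intro s hs hs'
        apply hne
        have h1 := (hmod t s hs).symm.trans (hmod t' s hs')
        have h2 := Nat.ModEq.add_left_cancel' _ h1
        rw [pow_succ] at h2
        have h3 := Nat.ModEq.mul_left_cancel' (by positivity) h2
        exact Nat.ModEq.eq_of_lt_of_lt h3 (Finset.mem_range.1 (by simpa using ht))
          (Finset.mem_range.1 (by simpa using ht'))
    · intro s hs
      obtain ⟨t, _, hst⟩ := Finset.mem_biUnion.1 hs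
      obtain ⟨h1, h2, h3, -, h5⟩ := (hS t).2 s hst
      have h6 := hv1 t
      have h7 := hv2 t
      refine ⟨by omega, by omega, h3, ?_, ?_⟩
      · have h8 : s.2 ≡ b + p ^ n * t [MOD p ^ n] :=
          (hmod t s hst).of_dvd (pow_dvd_pow p (Nat.le_succ n))
        have h9 : b + p ^ n * t ≡ b [MOD p ^ n] := by
          simp [Nat.ModEq, Nat.add_mul_mod_self_left]
        exact h8.trans h9
      · calc ‖F n b‖ ≤ (‖c‖ + p) * ‖F (v t).1 (v t).2‖ := hv4 t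
          _ ≤ (‖c‖ + p) * ((‖c‖ + p) ^ k * ‖F s.1 s.2‖) := mul_le_mul_of_nonneg_left h5 hθ
          _ = (‖c‖ + p) ^ (k + 1) * ‖F s.1 s.2‖ := by ring

theorem s_tree : S_TREE := fun p hp c F hper hrel => tree p hp c F hper hrel

end Pool.Agent.NH65.SP.Tree
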