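import Pool.Agent.NH65.SP.Aff

/-!
# The unfolding inequality on the modular surface
-/

set_option autoImplicit false

namespace Pool.Agent.NH65.SP.Unfold

open MeasureTheory Pool.Agent.NH65.SN Pool.Agent.NH65.SP Pool.Agent.NH65.SP.Aff
open scoped UpperHalfPlane MatrixGroups

theorem exists_mem_FD (z : ℍ) : ∃ g : SL(2, ℤ), g • z ∈ FD := by
  obtain ⟨g, hg⟩ := ModularGroup.exists_smul_mem_fd z
  refine ⟨g, hg.2, ?_⟩
  have h1 : (1 : ℝ) ≤ Complex.normSq ((g • z : ℍ) : ℂ) := hg.1
  rw [Complex.normSq_eq_norm_sq] at h1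
  have h2 := norm_nonneg ((g • z : ℍ) : ℂ)
  nlinarith

theorem measurable_smul (g : SL(2, ℤ)) : Measurable (fun z : ℍ => g • z) := by
  have h : (fun z : ℍ => g • z) =
      fun z : ℍ => (Matrix.SpecialLinearGroup.mapGL ℝ g : GL (Fin 2) ℝ) • z := rfl
  rw [h]
  exact measurable_const_smul _

theorem lintegral_smul (g : SL(2, ℤ)) (F : ℍ → ENNReal) (hF : Measurable F) :
    ∫⁻ z, F (g • z) ∂(volume : Measure ℍ) = ∫⁻ z, F z ∂(volume : Measure ℍ) := by
  have h : (fun z : ℍ => F (g • z)) =
      fun z : ℍ => F ((Matrix.SpecialLinearGroup.mapGL ℝ g : GL (Fin 2) ℝ) • z) := rfl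
  rw [h]
  exact (measurePreserving_smul (Matrix.SpecialLinearGroup.mapGL ℝ g : GL (Fin 2) ℝ)
    (volume : Measure ℍ)).lintegral_comp hF

instance : Countable SL(2, ℤ) := by
  have : Countable (Matrix (Fin 2) (Fin 2) ℤ) := inferInstanceAs (Countable (Fin 2 → Fin 2 → ℤ))
  exact Subtype.countable

theorem s_unfold : S_UNFOLD := by
  classical
  intro f hf hinv G hG M hM
  rw [← lintegral_indicator hG]
  set E : ℍ → ENNReal := G.indicator f with hE
  have hEm : Measurable E := hf.indicator hG
  have hFm : ∀ g : SL(2, ℤ), Measurable (FD.indicator (fun w => E (g • w))) := fun g =>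
    (hEm.comp (measurable_smul g)).indicator measurableSet_FD
  -- step 1
  have h1 : ∀ z, E z ≤ ∑' g : SL(2, ℤ), FD.indicator (fun w => E (g • w)) (g⁻¹ • z) := by
    intro z
    obtain ⟨g, hg⟩ := exists_mem_FD z
    have h2 := ENNReal.le_tsum
      (f := fun g : SL(2, ℤ) => FD.indicator (fun w => E (g • w)) (g⁻¹ • z)) g⁻¹
    refine le_trans ?_ h2
    beta_reduce
    rw [inv_inv, Set.indicator_of_mem hg, inv_smul_smul]
  calc ∫⁻ z, E z ∂(volume : Measure ℍ)
      ≤ ∫⁻ z, ∑' g : SL(2, ℤ), FD.indicator (fun w => E (g • w)) (g⁻¹ • z) ∂(volume : Measure ℍ) :=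
        lintegral_mono h1
    _ = ∑' g : SL(2, ℤ), ∫⁻ z, FD.indicator (fun w => E (g • w)) (g⁻¹ • z) ∂(volume : Measure ℍ) := by
        rw [lintegral_tsum]
        intro g
        exact ((hFm g).comp (measurable_smul g⁻¹)).aemeasurable
    _ = ∑' g : SL(2, ℤ), ∫⁻ z, FD.indicator (fun w => E (g • w)) z ∂(volume : Measure ℍ) := by
        congr 1
        funext g
        exact lintegral_smul g⁻¹ _ (hFm g)
    _ = ∑' g : SL(2, ℤ), ∫⁻ z in FD, E (g • z) ∂(volume : Measure ℍ) := by
        congr 1
        funext g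
        rw [lintegral_indicator measurableSet_FD]
    _ = ∫⁻ z in FD, ∑' g : SL(2, ℤ), E (g • z) ∂(volume : Measure ℍ) := by
        rw [lintegral_tsum]
        intro g
        exact (hEm.comp (measurable_smul g)).aemeasurable
    _ ≤ ∫⁻ z in FD, (M : ENNReal) * f z ∂(volume : Measure ℍ) := by
        refine setLIntegral_mono (hf.const_mul _) ?_
        intro z hz
        obtain ⟨hfin, hcard⟩ := hM z hz
        have h3 : ∑' g : SL(2, ℤ), E (g • z) = ∑ g ∈ hfin.toFinset, E (g • z) := by
          refine tsum_eq_sum ?_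
          intro g hg
          rw [Set.Finite.mem_toFinset] at hg
          have hg' : g • z ∉ G := hg
          exact Set.indicator_of_notMem hg' f
        rw [h3]
        calc ∑ g ∈ hfin.toFinset, E (g • z) ≤ ∑ _g ∈ hfin.toFinset, f z := by
              refine Finset.sum_le_sum ?_
              intro g hg
              rw [Set.Finite.mem_toFinset] at hg
              have hg' : g • z ∈ G := hg
              have h4 : E (g • z) = f (g • z) := Set.indicator_of_mem hg' f
              rw [h4, hinv]
          _ = (hfin.toFinset.card : ENNReal) * f z := by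
              rw [Finset.sum_const, nsmul_eq_mul]
          _ ≤ (M : ENNReal) * f z := by
              gcongr
              rw [← Set.ncard_eq_toFinset_card _ hfin]
              exact hcard
    _ = M * ∫⁻ z in FD, f z ∂(volume : Measure ℍ) := by
        rw [lintegral_const_mul _ hf]

end Pool.Agent.NH65.SP.Unfold
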