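import Pool.Agent.NH65.SP.Defs

set_option autoImplicit false
open MeasureTheory Pool.Agent.NH65.SN
open scoped UpperHalfPlane MatrixGroups

/-!
# Project SP, job SP-8: large values at `p ^ k` nodes
-/

namespace Pool.Agent.NH65.SP.Val

/-- one step down the tree -/
lemma step {p : ℕ} (hp : 1 ≤ p) {c : ℂ} {F : ℕ → ℕ → ℂ} {n b : ℕ}
    (h : c * F (n + 1) b = F n b + ∑ t ∈ Finset.range p, F (n + 2) (b + p ^ (n + 1) * t)) :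
    ‖F n b‖ ≤ (‖c‖ + p) * ‖F (n + 1) b‖ ∨
      ∃ t < p, ‖F n b‖ ≤ (‖c‖ + p) * ‖F (n + 2) (b + p ^ (n + 1) * t)‖ := by
  by_contra hcon
  push Not at hcon
  obtain ⟨h1, h2⟩ := hcon
  have hp' : (1 : ℝ) ≤ p := by exact_mod_cast hp
  have hθ : 0 < ‖c‖ + p := by
    have := norm_nonneg c
    linarith
  have e : F n b = c * F (n + 1) b - ∑ t ∈ Finset.range p, F (n + 2) (b + p ^ (n + 1) * t) := by
    rw [h]; ring
  have h3 : ‖F n b‖ ≤ ‖c‖ * ‖F (n + 1) b‖ +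
      ∑ t ∈ Finset.range p, ‖F (n + 2) (b + p ^ (n + 1) * t)‖ := by
    calc ‖F n b‖ = ‖c * F (n + 1) b - ∑ t ∈ Finset.range p, F (n + 2) (b + p ^ (n + 1) * t)‖ := by
          rw [← e]
      _ ≤ ‖c * F (n + 1) b‖ + ‖∑ t ∈ Finset.range p, F (n + 2) (b + p ^ (n + 1) * t)‖ :=
          norm_sub_le _ _
      _ ≤ _ := by
          rw [norm_mul]
          exact add_le_add le_rfl (norm_sum_le _ _)
  have h4 : (‖c‖ + p) * ∑ t ∈ Finset.range p, ‖F (n + 2) (b + p ^ (n + 1) * t)‖ <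
      p * ‖F n b‖ := by
    rw [Finset.mul_sum]
    have h5 : ∑ t ∈ Finset.range p, (‖c‖ + p) * ‖F (n + 2) (b + p ^ (n + 1) * t)‖ <
        ∑ _t ∈ Finset.range p, ‖F n b‖ := by
      refine Finset.sum_lt_sum_of_nonempty (Finset.nonempty_range_iff.2 (by omega)) fun t ht => ?_
      exact h2 t (Finset.mem_range.1 ht)
    rwa [Finset.sum_const, Finset.card_range, nsmul_eq_mul] at h5
  have h6 : ‖c‖ * ((‖c‖ + p) * ‖F (n + 1) b‖) ≤ ‖c‖ * ‖F n b‖ :=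
    mul_le_mul_of_nonneg_left h1.le (norm_nonneg c)
  have h7 : (‖c‖ + p) * ‖F n b‖ ≤ (‖c‖ + p) * (‖c‖ * ‖F (n + 1) b‖ +
      ∑ t ∈ Finset.range p, ‖F (n + 2) (b + p ^ (n + 1) * t)‖) :=
    mul_le_mul_of_nonneg_left h3 hθ.le
  nlinarith

lemma node_zero (p : ℕ) (hp : 0 < p) (z : ℍ) : node p 0 0 z = z := by
  apply UpperHalfPlane.ext
  rw [coe_node p 0 0 hp z]
  simp

lemma theta_le {p : ℕ} (hp : 2 ≤ p) {c : ℂ} (hc : ‖c‖ ≤ (p : ℝ) ^ 14) : ‖c‖ + p ≤ (p : ℝ) ^ 15 := by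
  have hp' : (2 : ℝ) ≤ p := by exact_mod_cast hp
  have h1 : (p : ℝ) ≤ (p : ℝ) ^ 14 := by
    have : (p : ℝ) ^ 1 ≤ (p : ℝ) ^ 14 := pow_le_pow_right₀ (by linarith) (by norm_num)
    simpa using this
  have h2 : (p : ℝ) ^ 15 = p * (p : ℝ) ^ 14 := by ring
  rw [h2]
  have h3 : 0 ≤ (p : ℝ) ^ 14 := by positivity
  nlinarith

/-- SP-8 -/
theorem s_val (h1 : S_CP) (h2 : S_TREE) (h3 : S_REL) : S_VAL := by
  intro U T hU p hp z k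
  obtain ⟨c, hc, hrel⟩ := h3 U T hU p hp
  obtain ⟨hper, hR⟩ := hrel z
  have hθ := theta_le hp.two_le (h1 U T hU p hp c hc)
  have hθ0 : 0 ≤ ‖c‖ + p := by positivity
  have key : ∃ n0 b0 : ℕ, 1 ≤ n0 ∧ n0 ≤ 2 ∧ p ∣ b0 ∧
      ‖U (z : ℂ)‖ ≤ (‖c‖ + p) * ‖U (node p n0 b0 z)‖ := by
    have h00 := step (F := fun n b => U (node p n b z)) hp.one_le (hR 0 0)
    simp only [node_zero p hp.pos z] at h00
    rcases h00 with h | ⟨t, -, h⟩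
    · exact ⟨1, 0, le_rfl, by norm_num, dvd_zero _, h⟩
    · refine ⟨2, 0 + p ^ (0 + 1) * t, by norm_num, le_rfl, ?_, h⟩
      rw [zero_add, zero_add, pow_one]
      exact dvd_mul_right p t
  obtain ⟨n0, b0, hn1, hn2, hpb, hle⟩ := key
  obtain ⟨S, hS, hs⟩ := h2 p hp.one_le c (fun n b => U (node p n b z)) hper hR k n0 b0
  refine ⟨S, hS, fun s hsS => ?_⟩
  obtain ⟨k1, k2, k3, k4, k5⟩ := hs s hsS
  refine ⟨by omega, by omega, ?_, k3, ?_⟩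
  · have h4 : p ∣ p ^ n0 := dvd_pow_self p (by omega)
    have h5 : p ∣ b0 % p ^ n0 := (Nat.dvd_mod_iff h4).2 hpb
    rw [← k4] at h5
    exact (Nat.dvd_mod_iff h4).1 h5
  · have h6 : (‖c‖ + p) ^ (k + 1) ≤ ((p : ℝ) ^ (k + 1)) ^ 15 := by
      calc (‖c‖ + p) ^ (k + 1) ≤ ((p : ℝ) ^ 15) ^ (k + 1) := pow_le_pow_left₀ hθ0 hθ _
        _ = ((p : ℝ) ^ (k + 1)) ^ 15 := by rw [← pow_mul, ← pow_mul, mul_comm]
    calc ‖U (z : ℂ)‖ ≤ (‖c‖ + p) * ‖U (node p n0 b0 z)‖ := hle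
      _ ≤ (‖c‖ + p) * ((‖c‖ + p) ^ k * ‖U (node p s.1 s.2 z)‖) :=
          mul_le_mul_of_nonneg_left k5 hθ0
      _ = (‖c‖ + p) ^ (k + 1) * ‖U (node p s.1 s.2 z)‖ := by ring
      _ ≤ ((p : ℝ) ^ (k + 1)) ^ 15 * ‖U (node p s.1 s.2 z)‖ :=
          mul_le_mul_of_nonneg_right h6 (norm_nonneg _)

end Pool.Agent.NH65.SP.Val
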