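import Pool.Agent.NH65.SP.Norm
import Pool.Agent.NH65.SP.Unfold
import Pool.Agent.NH65.SP.Count
import Pool.Agent.NH65.SP.Aff
import Pool.Agent.NH65.SP.Cp
import Pool.Agent.NH65.SP.Tree
import Pool.Agent.NH65.SP.Rel
import Pool.Agent.NH65.SP.Val
import Pool.Agent.NH65.SP.Kap
import Pool.Agent.NH65.SP.Cm1
import Pool.Agent.NH65.SP.Cm2
import Pool.Agent.NH65.SP.Cm3
import Pool.Agent.NH65.SP.Inert
import Pool.Agent.NH65.SP.Scal
import Pool.Agent.NH65.SP.Arith
import Pool.Agent.NH65.SP.Sep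
import Pool.Agent.NH65.SP.Down
import Pool.Agent.NH65.SP.Spread
import Pool.Agent.NH65.SP.Equiv

set_option autoImplicit false

namespace Pool.Agent.NH65.SP.All

open Pool.Agent.NH65.SP

theorem s_cp : S_CP := Cp.s_cp Norm.s_norm Unfold.s_unfold Count.s_count Aff.s_aff

theorem s_down : S_DOWN := Down.s_down s_cp Rel.s_rel

theorem s_spread : S_SPREAD :=
  Spread.s_spread (Val.s_val s_cp Tree.s_tree Rel.s_rel)
    (Sep.s_sep Kap.s_kap Cm1.s_cm1 Cm2.s_cm2 Cm3.s_cm3 Pool.Agent.NH65.SP.s_inert Scal.s_scal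
      (Pool.Agent.NH65.SP.s_arith Scal.s_scal)) s_down

theorem s_equiv : S_EQUIV := Equiv.s_equiv s_spread s_down

end Pool.Agent.NH65.SP.All
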