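import Pool.Agent.NH65.SN.Defs

set_option autoImplicit false
open MeasureTheory Pool.Agent.NH65.SN
open scoped UpperHalfPlane MatrixGroups

/-!
# Project SP (MP_8fded1_nt, second result): quantitative spreading of large values of Hecke-Maass
forms.  Definitions and statements of the jobs.
-/

namespace Pool.Agent.NH65.SP

/-- the (closed) fundamental domain -/
def FD : Set ℍ := {z : ℍ | |z.re| ≤ 1 / 2 ∧ 1 ≤ ‖(z : ℂ)‖}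

open Classical in
/-- the point `(z + b) / p ^ n` -/
noncomputable def node (p n b : ℕ) (z : ℍ) : ℍ :=
  if h : 0 < (((z : ℂ) + (b : ℂ)) / (p : ℂ) ^ n).im then ⟨((z : ℂ) + (b : ℂ)) / (p : ℂ) ^ n, h⟩ else z

lemma im_pos_aux (p n b : ℕ) (hp : 0 < p) (z : ℍ) :
    0 < (((z : ℂ) + (b : ℂ)) / (p : ℂ) ^ n).im := by
  have h1 : (p : ℂ) ^ n = (((p : ℝ) ^ n : ℝ) : ℂ) := by push_cast; rfl
  rw [h1, Complex.div_ofReal_im]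
  have h2 : (0 : ℝ) < (p : ℝ) ^ n := by positivity
  have h3 : ((z : ℂ) + (b : ℂ)).im = z.im := by simp
  rw [h3]
  exact div_pos z.im_pos h2

lemma coe_node (p n b : ℕ) (hp : 0 < p) (z : ℍ) :
    ((node p n b z : ℍ) : ℂ) = ((z : ℂ) + (b : ℂ)) / (p : ℂ) ^ n := by
  unfold node
  rw [dif_pos (im_pos_aux p n b hp z)]

lemma im_node (p n b : ℕ) (hp : 0 < p) (z : ℍ) : (node p n b z).im = z.im / (p : ℝ) ^ n := by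
  have h := congrArg Complex.im (coe_node p n b hp z)
  have h1 : (p : ℂ) ^ n = (((p : ℝ) ^ n : ℝ) : ℂ) := by push_cast; rfl
  rw [h1, Complex.div_ofReal_im] at h
  simpa using h

lemma re_node (p n b : ℕ) (hp : 0 < p) (z : ℍ) : (node p n b z).re = (z.re + b) / (p : ℝ) ^ n := by
  have h := congrArg Complex.re (coe_node p n b hp z)
  have h1 : (p : ℂ) ^ n = (((p : ℝ) ^ n : ℝ) : ℂ) := by push_cast; rfl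
  rw [h1, Complex.div_ofReal_re] at h
  simpa using h

/-- the integral matrix `adj(M) g M'`, `M = (1 b; 0 p^n)`, `M' = (1 b'; 0 p^m)`, of determinant
`p^(n+m)` -/
def kap (p n b m b' : ℕ) (g : SL(2, ℤ)) : Matrix (Fin 2) (Fin 2) ℤ :=
  !![(p : ℤ) ^ n * g.1 0 0 - b * g.1 1 0,
    (p : ℤ) ^ n * (g.1 0 0 * b' + g.1 0 1 * (p : ℤ) ^ m) - b * (g.1 1 0 * b' + g.1 1 1 * (p : ℤ) ^ m);
    g.1 1 0, g.1 1 0 * b' + g.1 1 1 * (p : ℤ) ^ m]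

lemma kap00 (p n b m b' : ℕ) (g : SL(2, ℤ)) :
    kap p n b m b' g 0 0 = (p : ℤ) ^ n * g.1 0 0 - b * g.1 1 0 := rfl
lemma kap01 (p n b m b' : ℕ) (g : SL(2, ℤ)) :
    kap p n b m b' g 0 1 = (p : ℤ) ^ n * (g.1 0 0 * b' + g.1 0 1 * (p : ℤ) ^ m)
      - b * (g.1 1 0 * b' + g.1 1 1 * (p : ℤ) ^ m) := rfl
lemma kap10 (p n b m b' : ℕ) (g : SL(2, ℤ)) : kap p n b m b' g 1 0 = g.1 1 0 := rfl
lemma kap11 (p n b m b' : ℕ) (g : SL(2, ℤ)) :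
    kap p n b m b' g 1 1 = g.1 1 0 * b' + g.1 1 1 * (p : ℤ) ^ m := rfl

/-- `z₀` is a root of the form `(A, B, C)` -/
def Root (A B C : ℤ) (z₀ : ℍ) : Prop := (A : ℂ) * (z₀ : ℂ) ^ 2 + (B : ℂ) * (z₀ : ℂ) + (C : ℂ) = 0

/-- `c` is the eigenvalue of (the unnormalised) `T_p` -/
def Eig (U : ℂ → ℂ) (p : ℕ) (c : ℂ) : Prop :=
  ∀ z : ℂ, 0 < z.im → U ((p : ℂ) * z) + ∑ t ∈ Finset.range p, U ((z + (t : ℂ)) / (p : ℂ)) = c * U z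

/-! ## The statements of the jobs -/

/-- SP-1 NORM.  The `L²` normalisation as a lower integral over the invariant measure of `ℍ`. -/
def S_NORM : Prop := ∀ U : ℂ → ℂ, ∀ T : ℝ, IsHeckeMaass U T →
  ∫⁻ z in FD, ‖U (z : ℂ)‖ₑ ^ 2 ∂(volume : Measure ℍ) = 1

/-- SP-2 UNFOLD. -/
def S_UNFOLD : Prop := ∀ f : ℍ → ENNReal, Measurable f →
  (∀ g : SL(2, ℤ), ∀ z : ℍ, f (g • z) = f z) → ∀ G : Set ℍ, MeasurableSet G → ∀ M : ℕ,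
    (∀ z ∈ FD, {g : SL(2, ℤ) | g • z ∈ G}.Finite ∧ {g : SL(2, ℤ) | g • z ∈ G}.ncard ≤ M) →
    ∫⁻ z in G, f z ∂(volume : Measure ℍ) ≤ M * ∫⁻ z in FD, f z ∂(volume : Measure ℍ)

/-- SP-3 COUNT. -/
def S_COUNT : Prop := ∀ p : ℕ, p.Prime → ∀ x ∈ hk p, ∀ z ∈ FD,
  {g : SL(2, ℤ) | g • z ∈ ptH p x '' FD}.Finite ∧
    {g : SL(2, ℤ) | g • z ∈ ptH p x '' FD}.ncard ≤ p ^ 24

/-- SP-4 AFF.  The maps `z ↦ p z` and `z ↦ (z + b) / p` preserve the invariant measure. -/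
def S_AFF : Prop := ∀ p : ℕ, p.Prime → ∀ x ∈ hk p,
  MeasurableSet (ptH p x '' FD) ∧ ∀ f : ℍ → ENNReal, Measurable f →
    ∫⁻ z in FD, f (ptH p x z) ∂(volume : Measure ℍ) =
      ∫⁻ z in ptH p x '' FD, f z ∂(volume : Measure ℍ)

/-- SP-5 CP.  Uniform polynomial bound for the Hecke eigenvalues. -/
def S_CP : Prop := ∀ U : ℂ → ℂ, ∀ T : ℝ, IsHeckeMaass U T → ∀ p : ℕ, p.Prime → ∀ c : ℂ,
  Eig U p c → ‖c‖ ≤ (p : ℝ) ^ 14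

/-- SP-6 TREE.  Large values on many branches of the tree. -/
def S_TREE : Prop := ∀ p : ℕ, 1 ≤ p → ∀ c : ℂ, ∀ F : ℕ → ℕ → ℂ,
  (∀ n b, F n (b + p ^ n) = F n b) →
  (∀ n b, c * F (n + 1) b = F n b + ∑ t ∈ Finset.range p, F (n + 2) (b + p ^ (n + 1) * t)) →
  ∀ k n b : ℕ, ∃ S : Finset (ℕ × ℕ), S.card = p ^ k ∧ ∀ s ∈ S,
    n ≤ s.1 ∧ s.1 ≤ n + 2 * k ∧ s.2 < p ^ s.1 ∧ s.2 % p ^ n = b % p ^ n ∧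
    ‖F n b‖ ≤ (‖c‖ + p) ^ k * ‖F s.1 s.2‖

/-- SP-7 REL.  The Hecke relations on the tree of `T_p` below a point. -/
def S_REL : Prop := ∀ U : ℂ → ℂ, ∀ T : ℝ, IsHeckeMaass U T → ∀ p : ℕ, p.Prime →
  ∃ c : ℂ, Eig U p c ∧ ∀ z : ℍ,
    (∀ n b : ℕ, U (node p n (b + p ^ n) z) = U (node p n b z)) ∧
    (∀ n b : ℕ, c * U (node p (n + 1) b z) = U (node p n b z) +
      ∑ t ∈ Finset.range p, U (node p (n + 2) (b + p ^ (n + 1) * t) z))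

/-- SP-8 VAL.  Large values at `p ^ k` nodes below `(1, 0)`. -/
def S_VAL : Prop := ∀ U : ℂ → ℂ, ∀ T : ℝ, IsHeckeMaass U T → ∀ p : ℕ, p.Prime → ∀ z : ℍ, ∀ k : ℕ,
  ∃ S : Finset (ℕ × ℕ), S.card = p ^ k ∧ ∀ s ∈ S, 1 ≤ s.1 ∧ s.1 ≤ 2 * k + 2 ∧ p ∣ s.2 ∧
    s.2 < p ^ s.1 ∧ ‖U (z : ℂ)‖ ≤ ((p : ℝ) ^ (k + 1)) ^ 15 * ‖U (node p s.1 s.2 z)‖

/-- SP-9 KAP.  The distance of two nodes in terms of the matrix `kap`. -/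
def S_KAP : Prop := ∀ p n b m b' : ℕ, 0 < p → ∀ g : SL(2, ℤ), ∀ z : ℍ,
  Real.cosh (dist (node p n b z) (g • node p m b' z)) - 1 =
    ‖((kap p n b m b' g 1 0 : ℤ) : ℂ) * (z : ℂ) ^ 2 +
      ((kap p n b m b' g 1 1 - kap p n b m b' g 0 0 : ℤ) : ℂ) * (z : ℂ) +
      ((-(kap p n b m b' g 0 1) : ℤ) : ℂ)‖ ^ 2 / (2 * (p : ℝ) ^ (n + m) * z.im ^ 2) ∧
  (kap p n b m b' g 0 0 + kap p n b m b' g 1 1) ^ 2 -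
    ((kap p n b m b' g 1 1 - kap p n b m b' g 0 0) ^ 2 -
      4 * kap p n b m b' g 1 0 * (-(kap p n b m b' g 0 1))) = 4 * (p : ℤ) ^ (n + m)

/-- SP-10 CM1.  A point at which a form is very small is close to the root of the form. -/
def S_CM1 : Prop := ∀ z : ℍ, 1 / 4 ≤ z.im → z.im ≤ 1 → ∀ A B C : ℤ, ¬ (A = 0 ∧ B = 0 ∧ C = 0) →
  ‖(A : ℂ) * (z : ℂ) ^ 2 + (B : ℂ) * (z : ℂ) + (C : ℂ)‖ < 1 / 4 * z.im →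
  B ^ 2 - 4 * A * C < 0 ∧ ∃ z₀ : ℍ, Root A B C z₀ ∧
    dist z z₀ ≤ ‖(A : ℂ) * (z : ℂ) ^ 2 + (B : ℂ) * (z : ℂ) + (C : ℂ)‖ / z.im

/-- SP-11 CM2.  Roots of forms repel each other. -/
def S_CM2 : Prop := ∀ z₁ z₂ : ℍ, ∀ A₁ B₁ C₁ A₂ B₂ C₂ : ℤ,
  ¬ (A₁ = 0 ∧ B₁ = 0 ∧ C₁ = 0) → ¬ (A₂ = 0 ∧ B₂ = 0 ∧ C₂ = 0) →
  Root A₁ B₁ C₁ z₁ → Root A₂ B₂ C₂ z₂ → ∀ Y : ℝ, 1 ≤ Y →
  ((4 * A₁ * C₁ - B₁ ^ 2 : ℤ) : ℝ) ≤ Y → ((4 * A₂ * C₂ - B₂ ^ 2 : ℤ) : ℝ) ≤ Y →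
  dist z₁ z₂ < 1 / (2 * Y) → z₁ = z₂

/-- SP-12 CM3.  Forms with a given root are the multiples of a primitive one. -/
def S_CM3 : Prop := ∀ z₀ : ℍ, ∀ A B C : ℤ, ¬ (A = 0 ∧ B = 0 ∧ C = 0) → Root A B C z₀ →
  ∃ A₀ B₀ C₀ : ℤ, (∀ d : ℤ, d ∣ A₀ → d ∣ B₀ → d ∣ C₀ → IsUnit d) ∧
    0 < 4 * A₀ * C₀ - B₀ ^ 2 ∧ 4 * A₀ * C₀ - B₀ ^ 2 ≤ 4 * A * C - B ^ 2 ∧ Root A₀ B₀ C₀ z₀ ∧
    ∀ A' B' C' : ℤ, Root A' B' C' z₀ → ∃ l : ℤ, A' = l * A₀ ∧ B' = l * B₀ ∧ C' = l * C₀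

/-- SP-13 INERT.  A small inert prime. -/
def S_INERT : Prop := ∀ D : ℕ, 0 < D → ∃ p : ℕ, p.Prime ∧ 5 ≤ p ∧ p ≤ 12 * D ∧
  ∀ x : ℤ, ¬ (p : ℤ) ∣ x ^ 2 + D

/-- SP-14 SCAL.  Scalar matrices only come from equal nodes. -/
def S_SCAL : Prop := ∀ p : ℕ, p.Prime → ∀ n b m b' : ℕ, b < p ^ n → b' < p ^ m →
  ∀ g : SL(2, ℤ), kap p n b m b' g 1 0 = 0 → kap p n b m b' g 1 1 = kap p n b m b' g 0 0 →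
  kap p n b m b' g 0 1 = 0 → n = m ∧ b = b'

/-- SP-15 ARITH.  At the root of a form for which `p` is inert, different nodes below `(1, 0)` are
inequivalent. -/
def S_ARITH : Prop := ∀ p : ℕ, p.Prime → 3 ≤ p → ∀ A₀ B₀ C₀ : ℤ,
  (∀ d : ℤ, d ∣ A₀ → d ∣ B₀ → d ∣ C₀ → IsUnit d) → 0 < 4 * A₀ * C₀ - B₀ ^ 2 →
  (∀ x : ℤ, ¬ (p : ℤ) ∣ x ^ 2 + (4 * A₀ * C₀ - B₀ ^ 2)) →
  ∀ n b m b' : ℕ, 1 ≤ n → 1 ≤ m → p ∣ b → p ∣ b' → b < p ^ n → b' < p ^ m →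
  ∀ g : SL(2, ℤ), ∀ l : ℤ, kap p n b m b' g 1 0 = l * A₀ →
    kap p n b m b' g 1 1 - kap p n b m b' g 0 0 = l * B₀ →
    -(kap p n b m b' g 0 1) = l * C₀ → n = m ∧ b = b'

/-- SP-16 SEP.  Separation of the nodes for a suitable prime. -/
def S_SEP : Prop := ∀ N : ℕ, 2 ≤ N → ∀ z : ℍ, 1 / 4 ≤ z.im → z.im ≤ 1 →
  ∃ p : ℕ, p.Prime ∧ ∃ k : ℕ, N ≤ p ^ k ∧ p ^ (k + 1) ≤ N ^ 37 ∧
    ∀ n b m b' : ℕ, 1 ≤ n → n ≤ 2 * k + 2 → 1 ≤ m → m ≤ 2 * k + 2 → p ∣ b → p ∣ b' →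
      b < p ^ n → b' < p ^ m → (n, b) ≠ (m, b') → ∀ g : SL(2, ℤ),
        ((N : ℝ) ^ 228)⁻¹ ≤ dist (node p n b z) (g • node p m b' z)

/-- SP-17 DOWN.  Values high in the cusp are controlled by values at bounded height. -/
def S_DOWN : Prop := ∀ U : ℂ → ℂ, ∀ T : ℝ, IsHeckeMaass U T → ∀ z : ℍ, 1 / 2 ≤ z.im →
  ∃ w : ℍ, |w.re| ≤ 1 / 2 ∧ 1 / 4 ≤ w.im ∧ w.im ≤ 1 ∧
    ‖U (z : ℂ)‖ ≤ (2 * z.im) ^ 15 * ‖U (w : ℂ)‖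

/-- SP-18 SPREAD. -/
def S_SPREAD : Prop := ∀ N : ℕ, 2 ≤ N → ∀ U : ℂ → ℂ, ∀ T : ℝ, IsHeckeMaass U T →
  ∀ z : ℍ, 1 / 2 ≤ z.im → ∃ w : Fin N → ℍ,
    (∀ i, ((N : ℝ) ^ 76)⁻¹ ≤ (w i).im ∧ (w i).im ≤ 1 ∧
      ‖U (z : ℂ)‖ ≤ (2 * z.im) ^ 15 * (N : ℝ) ^ 555 * ‖U (w i : ℂ)‖) ∧
    ∀ i j, i ≠ j → ∀ g : SL(2, ℤ), ((N : ℝ) ^ 228)⁻¹ ≤ dist (w i) (g • w j)

/-- the sup-norm bound outside at most `T ^ (ε / 228)` discs of radius `2^(-229) T^(-ε)` which may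
depend on the form, and with polynomial growth in the cusp -/
def WeakBound (s : ℝ) : Prop :=
  ∀ ε : ℝ, 0 < ε → ∃ C : ℝ, ∀ U : ℂ → ℂ, ∀ T : ℝ, 1 ≤ T → IsHeckeMaass U T →
    ∃ n : ℕ, (n : ℝ) ≤ T ^ (ε / 228) ∧ ∃ ζ : Fin n → ℍ, ∀ w : ℍ, 1 / 2 ≤ w.im →
      (∀ i, ∀ g : SL(2, ℤ), T ^ (-ε) / 2 ^ 229 ≤ dist w (g • ζ i)) →
        ‖U (w : ℂ)‖ ≤ C * T ^ (s + ε) * w.im ^ 15

/-- SP-19 EQUIV. -/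
def S_EQUIV : Prop := ∀ s : ℝ,
  (∀ K : Set ℍ, IsCompact K → ∀ ε : ℝ, 0 < ε → SupNormBound K (s + ε)) ↔ WeakBound s

end Pool.Agent.NH65.SP
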