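import Pool.Agent.NH65.SP.Aff
import Pool.Agent.NH65.SN.Inv

/-!
# The `L²` normalisation as a lower integral over the invariant measure of `ℍ`
-/

set_option autoImplicit false

namespace Pool.Agent.NH65.SP.Norm

open MeasureTheory Pool.Agent.NH65.SN Pool.Agent.NH65.SP Pool.Agent.NH65.SP.Aff
open scoped UpperHalfPlane MatrixGroups NNReal

theorem image_FD : UpperHalfPlane.coe '' FD = {z : ℂ | 0 < z.im ∧ |z.re| ≤ 1 / 2 ∧ 1 ≤ ‖z‖} := by
  ext z
  constructor
  · rintro ⟨w, hw, rfl⟩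
    exact ⟨w.im_pos, hw.1, hw.2⟩
  · rintro ⟨h1, h2, h3⟩
    exact ⟨⟨z, h1⟩, ⟨h2, h3⟩, rfl⟩

theorem measurable_enorm_sq {U : ℂ → ℂ} (hc : Continuous (fun z : ℍ => U (z : ℂ))) :
    Measurable (fun z : ℍ => ‖U (z : ℂ)‖ₑ ^ 2) :=
  (hc.measurable.enorm).pow_const 2

theorem density_mul (u : ℂ) (y : ℝ) (hy : 0 < y) :
    (((1 / NNReal.mk y hy.le : ℝ≥0) ^ 2 : ℝ≥0) : ENNReal) * ‖u‖ₑ ^ 2 =
      ENNReal.ofReal (‖u‖ ^ 2 / y ^ 2) := by
  have h1 : (((1 / NNReal.mk y hy.le : ℝ≥0) ^ 2 : ℝ≥0) : ENNReal) = ENNReal.ofReal ((1 / y) ^ 2) := by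
    rw [ENNReal.ofReal, ENNReal.coe_inj]
    ext
    rw [Real.coe_toNNReal _ (by positivity)]
    simp
  rw [h1, ← ofReal_norm, ← ENNReal.ofReal_pow (norm_nonneg _), ← ENNReal.ofReal_mul (by positivity)]
  congr 1
  field_simp

theorem s_norm : S_NORM := by
  intro U T hU
  have hint := hU.2.2.2.2.1
  have hcont := (Inv.s_inv U T hU).2
  set S : Set ℂ := {z : ℂ | 0 < z.im ∧ |z.re| ≤ 1 / 2 ∧ 1 ≤ ‖z‖} with hS
  set H : ℂ → ENNReal := fun z => ENNReal.ofReal (‖U z‖ ^ 2 / z.im ^ 2) with hH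
  have hI : Integrable (fun z : ℂ => ‖U z‖ ^ 2 / z.im ^ 2) (volume.restrict S) := by
    by_contra hcon
    rw [integral_undef hcon] at hint
    exact zero_ne_one hint
  have h1 : ∫⁻ z in S, H z = 1 := by
    have h2 := ofReal_integral_eq_lintegral_ofReal hI
      (Filter.Eventually.of_forall fun z => by positivity)
    rw [hint, ENNReal.ofReal_one] at h2
    exact h2.symm
  have hpres : MeasurePreserving UpperHalfPlane.coe (volume.comap UpperHalfPlane.coe)
      (volume.restrict (.range UpperHalfPlane.coe)) :=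
    ⟨UpperHalfPlane.measurable_coe, by rw [UpperHalfPlane.measurableEmbedding_coe.map_comap]⟩
  have hw : Measurable (fun z : ℍ => (((1 / NNReal.mk z.im z.im_pos.le : ℝ≥0) ^ 2 : ℝ≥0) : ENNReal)) := by
    have h2 : Measurable (fun z : ℍ => (NNReal.mk z.im z.im_pos.le : ℝ≥0)) :=
      UpperHalfPlane.continuous_im.measurable.subtype_mk
    exact ((h2.const_div 1).pow_const 2).coe_nnreal_ennreal
  rw [UpperHalfPlane.volume_def, restrict_withDensity measurableSet_FD,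
    lintegral_withDensity_eq_lintegral_mul _ hw (measurable_enorm_sq hcont)]
  have h2 : ∀ z : ℍ, ((fun z : ℍ => (((1 / NNReal.mk z.im z.im_pos.le : ℝ≥0) ^ 2 : ℝ≥0) : ENNReal)) *
      (fun z : ℍ => ‖U (z : ℂ)‖ₑ ^ 2)) z = H (z : ℂ) := by
    intro z
    rw [Pi.mul_apply]
    exact density_mul (U z) z.im z.im_pos
  simp_rw [h2]
  rw [hpres.setLIntegral_comp_emb UpperHalfPlane.measurableEmbedding_coe H FD,
    Measure.restrict_restrict_of_subset (Set.image_subset_range _ _), image_FD]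
  exact h1

end Pool.Agent.NH65.SP.Norm
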