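import Pool.Agent.NH65.SP.Defs

set_option autoImplicit false
open MeasureTheory Pool.Agent.NH65.SN
open scoped UpperHalfPlane MatrixGroups

namespace Pool.Agent.NH65.SP.Sep

open Pool.Agent.NH65.SP

/-- `cosh d - 1 ≤ d ^ 2` for `0 ≤ d ≤ 1` -/
lemma cosh_sub_one_le {d : ℝ} (h0 : 0 ≤ d) (h1 : d ≤ 1) : Real.cosh d - 1 ≤ d ^ 2 := by
  have h2 : |Real.exp d - 1 - d| ≤ d ^ 2 := Real.abs_exp_sub_one_sub_id_le (by rw [abs_of_nonneg h0]; exact h1)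
  have h3 : |Real.exp (-d) - 1 - (-d)| ≤ (-d) ^ 2 :=
    Real.abs_exp_sub_one_sub_id_le (by rw [abs_neg, abs_of_nonneg h0]; exact h1)
  have h4 := (abs_le.mp h2).2
  have h5 := (abs_le.mp h3).2
  rw [Real.cosh_eq]
  nlinarith

lemma near (hK : S_KAP) (h1 : S_CM1) (h5 : S_SCAL) {N : ℕ} (hN : 2 ≤ N) {z : ℍ}
    (hz1 : 1 / 4 ≤ z.im) (hz2 : z.im ≤ 1) {p : ℕ} (hp : p.Prime) {k : ℕ}
    (hpk : p ^ (k + 1) ≤ N ^ 37) {n b m b' : ℕ} (hn2 : n ≤ 2 * k + 2) (hm2 : m ≤ 2 * k + 2)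
    (hb : b < p ^ n) (hb' : b' < p ^ m) (hne : (n, b) ≠ (m, b')) (g : SL(2, ℤ))
    (hd : dist (node p n b z) (g • node p m b' z) < ((N : ℝ) ^ 228)⁻¹) :
    ¬ (kap p n b m b' g 1 0 = 0 ∧ kap p n b m b' g 1 1 - kap p n b m b' g 0 0 = 0 ∧
      -(kap p n b m b' g 0 1) = 0) ∧
    4 * kap p n b m b' g 1 0 * (-(kap p n b m b' g 0 1)) -
      (kap p n b m b' g 1 1 - kap p n b m b' g 0 0) ^ 2 ≤ 4 * ((p : ℤ) ^ (k + 1)) ^ 4 ∧
    ∃ z₀ : ℍ, Root (kap p n b m b' g 1 0) (kap p n b m b' g 1 1 - kap p n b m b' g 0 0)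
      (-(kap p n b m b' g 0 1)) z₀ ∧ dist z z₀ ≤ ((N : ℝ) ^ 153)⁻¹ := by
  obtain ⟨hK1, hK2⟩ := hK p n b m b' hp.pos g z
  have hN0 : (0 : ℝ) < N := by exact_mod_cast (by omega : 0 < N)
  have hN2 : (2 : ℝ) ≤ N := by exact_mod_cast hN
  set A := kap p n b m b' g 1 0 with hA
  set B := kap p n b m b' g 1 1 - kap p n b m b' g 0 0 with hB
  set C := -(kap p n b m b' g 0 1) with hC
  have hnz : ¬ (A = 0 ∧ B = 0 ∧ C = 0) := by
    rintro ⟨hA0, hB0, hC0⟩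
    obtain ⟨h6, h7⟩ := h5 p hp n b m b' hb hb' g hA0 (by omega) (by omega)
    exact hne (by rw [h6, h7])
  refine ⟨hnz, ?_, ?_⟩
  · have hq : (p : ℤ) ^ (n + m) ≤ ((p : ℤ) ^ (k + 1)) ^ 4 := by
      rw [← pow_mul]
      exact pow_le_pow_right₀ (by exact_mod_cast hp.one_le) (by omega)
    nlinarith [sq_nonneg (kap p n b m b' g 0 0 + kap p n b m b' g 1 1)]
  · set d := dist (node p n b z) (g • node p m b' z) with hdd
    have hd0 : 0 ≤ d := dist_nonneg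
    have hd1 : d ≤ 1 := by
      have : ((N : ℝ) ^ 228)⁻¹ ≤ 1 := by
        apply inv_le_one_of_one_le₀
        exact one_le_pow₀ (by linarith)
      linarith
    have hc := cosh_sub_one_le hd0 hd1
    set Q := ‖(A : ℂ) * (z : ℂ) ^ 2 + (B : ℂ) * (z : ℂ) + (C : ℂ)‖ with hQ
    have hQ0 : 0 ≤ Q := norm_nonneg _
    have hy : 0 < z.im := z.im_pos
    -- q ≤ N ^ 148
    have hq : (p : ℝ) ^ (n + m) ≤ (N : ℝ) ^ 148 := by
      have h7 : p ^ (n + m) ≤ N ^ 148 := by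
        calc p ^ (n + m) ≤ p ^ ((k + 1) * 4) := Nat.pow_le_pow_right hp.pos (by omega)
          _ = (p ^ (k + 1)) ^ 4 := by rw [pow_mul]
          _ ≤ (N ^ 37) ^ 4 := Nat.pow_le_pow_left hpk 4
          _ = N ^ 148 := by rw [← pow_mul]
      exact_mod_cast h7
    have hq0 : (0 : ℝ) < (p : ℝ) ^ (n + m) := by
      have : (0 : ℝ) < p := by exact_mod_cast hp.pos
      positivity
    have hQle : Q / z.im ≤ ((N : ℝ) ^ 153)⁻¹ := by
      have e1 : Q ^ 2 / (2 * (p : ℝ) ^ (n + m) * z.im ^ 2) ≤ (((N : ℝ) ^ 228)⁻¹) ^ 2 := by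
        rw [← hK1]
        refine hc.trans ?_
        exact pow_le_pow_left₀ hd0 hd.le 2
      rw [div_le_iff₀ (by positivity)] at e1
      have e2 : (Q / z.im) ^ 2 ≤ (((N : ℝ) ^ 153)⁻¹) ^ 2 := by
        rw [div_pow, div_le_iff₀ (by positivity)]
        refine e1.trans ?_
        have e3 : (((N : ℝ) ^ 228)⁻¹) ^ 2 * (2 * (p : ℝ) ^ (n + m)) ≤ (((N : ℝ) ^ 153)⁻¹) ^ 2 := by
          calc (((N : ℝ) ^ 228)⁻¹) ^ 2 * (2 * (p : ℝ) ^ (n + m))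
              ≤ (((N : ℝ) ^ 228)⁻¹) ^ 2 * ((N : ℝ) * (N : ℝ) ^ 148) := by gcongr
            _ = (N : ℝ) ^ 149 / (N : ℝ) ^ 456 := by
                rw [inv_pow, ← pow_mul, ← pow_succ', inv_mul_eq_div]
            _ ≤ (((N : ℝ) ^ 153)⁻¹) ^ 2 := by
                rw [inv_pow, ← pow_mul, div_le_iff₀ (by positivity), inv_mul_eq_div,
                  le_div_iff₀ (by positivity), ← pow_add]
                exact pow_le_pow_right₀ (by linarith) (by norm_num)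
        calc (((N : ℝ) ^ 228)⁻¹) ^ 2 * (2 * (p : ℝ) ^ (n + m) * z.im ^ 2)
            = ((((N : ℝ) ^ 228)⁻¹) ^ 2 * (2 * (p : ℝ) ^ (n + m))) * z.im ^ 2 := by ring
          _ ≤ _ := by gcongr
      exact le_of_sq_le_sq e2 (by positivity)
    have hsmall : ((N : ℝ) ^ 153)⁻¹ < 1 / 4 := by
      rw [inv_lt_comm₀ (by positivity) (by norm_num)]
      calc ((1 : ℝ) / 4)⁻¹ = 2 ^ 2 := by norm_num
        _ < 2 ^ 153 := by norm_num
        _ ≤ (N : ℝ) ^ 153 := by gcongr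
    have hQlt : Q < 1 / 4 * z.im := by
      have := hQle.trans_lt hsmall
      rwa [div_lt_iff₀ hy] at this
    obtain ⟨-, z₀, hz₀, hdz⟩ := h1 z hz1 hz2 A B C hnz hQlt
    exact ⟨z₀, hz₀, hdz.trans hQle⟩

theorem s_sep (hK : S_KAP) (h1 : S_CM1) (h2 : S_CM2) (h3 : S_CM3) (h4 : S_INERT) (h5 : S_SCAL)
    (h6 : S_ARITH) : S_SEP := by
  intro N hN z hz1 hz2
  have hN0 : (0 : ℝ) < N := by exact_mod_cast (by omega : 0 < N)
  have hN2 : (2 : ℝ) ≤ N := by exact_mod_cast hN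
  by_cases hcase : ∃ A B C : ℤ, ¬ (A = 0 ∧ B = 0 ∧ C = 0) ∧ 4 * A * C - B ^ 2 ≤ (N : ℤ) ^ 14 ∧
      ∃ z₀ : ℍ, Root A B C z₀ ∧ dist z z₀ ≤ ((N : ℝ) ^ 153)⁻¹
  · obtain ⟨A, B, C, hnz, hdisc, z₀, hz₀, hdz⟩ := hcase
    obtain ⟨A₀, B₀, C₀, hprim, hpos, hle, hroot, hmul⟩ := h3 z₀ A B C hnz hz₀
    obtain ⟨D, hD⟩ := Int.eq_ofNat_of_zero_le hpos.le
    have hD0 : 0 < D := by
      have := hpos
      rw [hD] at this
      exact_mod_cast this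
    have hDN : D ≤ N ^ 14 := by
      have : (D : ℤ) ≤ (N : ℤ) ^ 14 := by rw [← hD]; exact hle.trans hdisc
      exact_mod_cast this
    obtain ⟨p, hp, hp5, hpD, hin⟩ := h4 D hD0
    have hpN : p ≤ N ^ 18 := by
      calc p ≤ 12 * D := hpD
        _ ≤ 2 ^ 4 * N ^ 14 := by nlinarith
        _ ≤ N ^ 4 * N ^ 14 := Nat.mul_le_mul_right _ (Nat.pow_le_pow_left hN 4)
        _ = N ^ 18 := by rw [← pow_add]
    have hk1 : N ≤ p ^ Nat.clog p N := Nat.le_pow_clog (by omega) N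
    have hk2 : p ^ (Nat.clog p N + 1) ≤ N ^ 37 := by
      have hc0 : 0 < Nat.clog p N := Nat.clog_pos (by omega) hN
      have h7 : p ^ (Nat.clog p N).pred < N := Nat.pow_pred_clog_lt_self (by omega) (by omega)
      have h8 : Nat.clog p N + 1 = (Nat.clog p N).pred + 2 := by
        rw [Nat.pred_eq_sub_one]; omega
      rw [h8, pow_add]
      calc p ^ (Nat.clog p N).pred * p ^ 2 ≤ N * (N ^ 18) ^ 2 :=
            Nat.mul_le_mul h7.le (Nat.pow_le_pow_left hpN 2)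
        _ = N ^ 37 := by rw [← pow_mul, ← pow_succ']
    refine ⟨p, hp, Nat.clog p N, hk1, hk2, ?_⟩
    intro n b m b' hn1 hn2 hm1 hm2 hpb hpb' hb hb' hne g
    by_contra hlt
    push Not at hlt
    obtain ⟨hnz', hdisc', z₁, hz₁, hdz₁⟩ := near hK h1 h5 hN hz1 hz2 hp hk2 hn2 hm2 hb hb' hne g hlt
    have hnz0 : ¬ (A₀ = 0 ∧ B₀ = 0 ∧ C₀ = 0) := by
      rintro ⟨e1, e2, e3⟩
      rw [e1, e2, e3] at hpos
      norm_num at hpos
    have hYD : ((4 * A₀ * C₀ - B₀ ^ 2 : ℤ) : ℝ) ≤ (N : ℝ) ^ 150 := by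
      have e1 : (4 * A₀ * C₀ - B₀ ^ 2 : ℤ) ≤ (N : ℤ) ^ 150 :=
        (hle.trans hdisc).trans (pow_le_pow_right₀ (by exact_mod_cast (by omega : 1 ≤ N)) (by norm_num))
      exact_mod_cast e1
    have hYD' : ((4 * kap p n b m b' g 1 0 * (-(kap p n b m b' g 0 1)) -
        (kap p n b m b' g 1 1 - kap p n b m b' g 0 0) ^ 2 : ℤ) : ℝ) ≤ (N : ℝ) ^ 150 := by
      have e1 : 4 * kap p n b m b' g 1 0 * (-(kap p n b m b' g 0 1)) -
        (kap p n b m b' g 1 1 - kap p n b m b' g 0 0) ^ 2 ≤ (N : ℤ) ^ 150 := by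
        refine hdisc'.trans ?_
        have e2 : 4 * (p ^ (Nat.clog p N + 1)) ^ 4 ≤ N ^ 150 := by
          calc 4 * (p ^ (Nat.clog p N + 1)) ^ 4 ≤ N ^ 2 * (N ^ 37) ^ 4 := by
                apply Nat.mul_le_mul
                · calc 4 = 2 ^ 2 := by norm_num
                    _ ≤ N ^ 2 := Nat.pow_le_pow_left hN 2
                · exact Nat.pow_le_pow_left hk2 4
            _ = N ^ 150 := by rw [← pow_mul, ← pow_add]
        exact_mod_cast e2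
      exact_mod_cast e1
    have hclose : dist z₀ z₁ < 1 / (2 * (N : ℝ) ^ 150) := by
      have e1 : dist z₀ z₁ ≤ ((N : ℝ) ^ 153)⁻¹ + ((N : ℝ) ^ 153)⁻¹ := by
        calc dist z₀ z₁ ≤ dist z₀ z + dist z z₁ := dist_triangle _ _ _
          _ ≤ _ := add_le_add (by rw [dist_comm]; exact hdz) hdz₁
      refine e1.trans_lt ?_
      have e2 : (0 : ℝ) < (N : ℝ) ^ 150 := by positivity
      have e3 : (N : ℝ) ^ 153 = (N : ℝ) ^ 150 * (N : ℝ) ^ 3 := by rw [← pow_add]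
      have e4 : (8 : ℝ) ≤ (N : ℝ) ^ 3 := by
        calc (8 : ℝ) = 2 ^ 3 := by norm_num
          _ ≤ (N : ℝ) ^ 3 := by gcongr
      rw [← two_mul, e3, ← div_eq_mul_inv, div_lt_div_iff₀ (by positivity) (by positivity)]
      nlinarith
    have hY1 : (1 : ℝ) ≤ (N : ℝ) ^ 150 := one_le_pow₀ (by linarith)
    have heq := h2 z₀ z₁ A₀ B₀ C₀ _ _ _ hnz0 hnz' hroot hz₁ ((N : ℝ) ^ 150) hY1 hYD hYD' hclose
    rw [← heq] at hz₁
    obtain ⟨l, hl1, hl2, hl3⟩ := hmul _ _ _ hz₁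
    obtain ⟨e1, e2⟩ := h6 p hp (by omega) A₀ B₀ C₀ hprim hpos (by rw [hD]; exact hin) n b m b'
      hn1 hm1 hpb hpb' hb hb' g l hl1 hl2 hl3
    exact hne (by rw [e1, e2])
  · have hk1 : N ≤ 2 ^ Nat.clog 2 N := Nat.le_pow_clog (by omega) N
    have hk2' : 2 ^ (Nat.clog 2 N + 1) ≤ 4 * N := by
      have hc0 : 0 < Nat.clog 2 N := Nat.clog_pos (by omega) hN
      have h7 : 2 ^ (Nat.clog 2 N).pred < N := Nat.pow_pred_clog_lt_self (by omega) (by omega)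
      have h8 : Nat.clog 2 N + 1 = (Nat.clog 2 N).pred + 2 := by
        rw [Nat.pred_eq_sub_one]; omega
      rw [h8, pow_add]
      omega
    have hk2 : 2 ^ (Nat.clog 2 N + 1) ≤ N ^ 37 := by
      refine hk2'.trans ?_
      calc 4 * N = 2 ^ 2 * N := by norm_num
        _ ≤ N ^ 2 * N := Nat.mul_le_mul_right _ (Nat.pow_le_pow_left hN 2)
        _ = N ^ 3 := by rw [← pow_succ]
        _ ≤ N ^ 37 := Nat.pow_le_pow_right (by omega) (by norm_num)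
    refine ⟨2, Nat.prime_two, Nat.clog 2 N, hk1, hk2, ?_⟩
    intro n b m b' hn1 hn2 hm1 hm2 hpb hpb' hb hb' hne g
    by_contra hlt
    push Not at hlt
    obtain ⟨hnz', hdisc', z₁, hz₁, hdz₁⟩ :=
      near hK h1 h5 hN hz1 hz2 Nat.prime_two hk2 hn2 hm2 hb hb' hne g hlt
    refine hcase ⟨_, _, _, hnz', ?_, z₁, hz₁, hdz₁⟩
    refine hdisc'.trans ?_
    have e2 : 4 * (2 ^ (Nat.clog 2 N + 1)) ^ 4 ≤ N ^ 14 := by
      calc 4 * (2 ^ (Nat.clog 2 N + 1)) ^ 4 ≤ 4 * (4 * N) ^ 4 :=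
            Nat.mul_le_mul_left _ (Nat.pow_le_pow_left hk2' 4)
        _ = 2 ^ 10 * N ^ 4 := by ring
        _ ≤ N ^ 10 * N ^ 4 := Nat.mul_le_mul_right _ (Nat.pow_le_pow_left hN 10)
        _ = N ^ 14 := by rw [← pow_add]
    exact_mod_cast e2

end Pool.Agent.NH65.SP.Sep
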